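import Pool.Agent.Lib.MP_2c6a66_lc.UT.Fam

/-! Indicator of machine 0. -/

namespace Pool.Agent.Lib.MP_2c6a66_lc.UT

open Finset

noncomputable section

variable {n : ℕ}

/-- indicator of machine 0 -/
def ind (x : Fin 2) : ℝ := if x = 0 then 1 else 0

theorem ind_01 (x : Fin 2) : ind x = 0 ∨ ind x = 1 := by
  unfold ind; split_ifs <;> simp

theorem ind_nonneg (x : Fin 2) : 0 ≤ ind x := by
  rcases ind_01 x with h | h <;> rw [h]; exact zero_le_one

theorem ind_le (x : Fin 2) : ind x ≤ 1 := by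
  rcases ind_01 x with h | h <;> rw [h]; exact zero_le_one

theorem sum0 (σ : Fin n → Fin 2) (g : Fin n → ℝ) :
    ∑ k with σ k = 0, g k = ∑ k, ind (σ k) * g k := by
  rw [Finset.sum_filter]
  refine Finset.sum_congr rfl fun k _ => ?_
  unfold ind
  split_ifs <;> simp

theorem sum1 (σ : Fin n → Fin 2) (g : Fin n → ℝ) :
    ∑ k with σ k = 1, g k = ∑ k, (1 - ind (σ k)) * g k := by
  rw [Finset.sum_filter]
  refine Finset.sum_congr rfl fun k _ => ?_
  unfold ind
  have h : σ k = 1 ↔ ¬ σ k = 0 := by omega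
  by_cases h0 : σ k = 0
  · rw [if_neg (fun h' => h.1 h' h0), if_pos h0]; ring
  · rw [if_pos (h.2 h0), if_neg h0]; ring

end

end Pool.Agent.Lib.MP_2c6a66_lc.UT
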