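import Pool.Agent.Lib.MP_2c6a66_lc.UT.Mix
import Pool.Agent.Lib.MP_2c6a66_lc.UT.Ind

/-! The base systems, obtained from universally truthful mechanisms. -/

namespace Pool.Agent.Lib.MP_2c6a66_lc.UT

open scoped NNReal Topology
open Finset Filter MeasureTheory Pool.Agent.Lib.MP_2c6a66_lc.LB

noncomputable section

variable {n : ℕ}

/-- the profile of a family of types -/
def pr (f : Fin n → T) : Prof n := fun i k => if i = 0 then ((f k).1 : ℝ) else ((f k).2 : ℝ)

theorem pr_nonneg (f : Fin n → T) (i : Fin 2) (k : Fin n) : 0 ≤ pr f i k := by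
  unfold pr; split_ifs <;> exact NNReal.coe_nonneg _

theorem mks_pr (f : Fin n → T) (σ : Fin n → Fin 2) : mks (pr f) σ
    = max (∑ k, ind (σ k) * (f k).1) (∑ k, (1 - ind (σ k)) * (f k).2) := by
  unfold mks
  rw [sum0, sum1]
  simp [pr]

/-! ### Truthfulness -/

variable {X : Prof n → Fin n → Fin 2} {pay : Prof n → Fin 2 → ℝ}

/-- utility of machine 0 -/
def U0 (X : Prof n → Fin n → Fin 2) (pay : Prof n → Fin 2 → ℝ) (f : Fin n → T) : ℝ :=
  pay (pr f) 0 - ∑ k, ind (X (pr f) k) * (f k).1

/-- utility of machine 1 -/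
def U1 (X : Prof n → Fin n → Fin 2) (pay : Prof n → Fin 2 → ℝ) (f : Fin n → T) : ℝ :=
  pay (pr f) 1 - ∑ k, (1 - ind (X (pr f) k)) * (f k).2

theorem dt0 (h : DT X pay) (f f' : Fin n → T) (h2 : ∀ k, (f k).2 = (f' k).2) :
    U0 X pay f' + ∑ k, ind (X (pr f') k) * (((f' k).1 : ℝ) - (f k).1) ≤ U0 X pay f := by
  have e : Function.update (pr f) 0 (fun k => ((f' k).1 : ℝ)) = pr f' := by
    funext i k
    by_cases hi : i = 0
    · subst hi; simp [pr]
    · rw [Function.update_of_ne hi]; simp [pr, hi, h2]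
  have := h (pr f) (pr_nonneg f) 0 (fun k => ((f' k).1 : ℝ)) (fun k => NNReal.coe_nonneg _)
  rw [e, sum0, sum0] at this
  unfold U0
  simp only [mul_sub, Finset.sum_sub_distrib]
  simp only [pr, if_true] at this ⊢
  linarith

theorem dt1 (h : DT X pay) (f f' : Fin n → T) (h2 : ∀ k, (f k).1 = (f' k).1) :
    U1 X pay f' + ∑ k, (1 - ind (X (pr f') k)) * (((f' k).2 : ℝ) - (f k).2) ≤ U1 X pay f := by
  have e : Function.update (pr f) 1 (fun k => ((f' k).2 : ℝ)) = pr f' := by
    funext i k
    by_cases hi : i = 1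
    · subst hi; simp [pr]
    · have hi' : i = 0 := by omega
      rw [Function.update_of_ne hi]; simp [pr, hi', h2]
  have := h (pr f) (pr_nonneg f) 1 (fun k => ((f' k).2 : ℝ)) (fun k => NNReal.coe_nonneg _)
  rw [e, sum1, sum1] at this
  unfold U1
  have e2 : ∀ k, (1 - ind (X (pr f') k)) * (((f' k).2 : ℝ) - (f k).2)
      = (1 - ind (X (pr f') k)) * ((f' k).2 : ℝ) - (1 - ind (X (pr f') k)) * (f k).2 :=
    fun k => by ring
  simp only [e2, Finset.sum_sub_distrib]
  simp only [pr, one_ne_zero, if_false] at this ⊢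
  linarith

theorem single_sum (g : Fin n → ℝ) (a : Fin n) (h : ∀ k, k ≠ a → g k = 0) : ∑ k, g k = g a :=
  Finset.sum_eq_single a (fun k _ hk => h k hk) (fun h' => absurd (Finset.mem_univ a) h')

theorem single0 (h : DT X pay) (g : Fin n → T) (k : Fin n) {a a' : ℝ≥0} (haa : a ≤ a')
    (b : ℝ≥0) : ind (X (pr (Function.update g k (a', b))) k)
      ≤ ind (X (pr (Function.update g k (a, b))) k) := by
  rcases haa.eq_or_lt with rfl | hlt
  · exact le_rfl
  · have h1 := dt0 h (Function.update g k (a, b)) (Function.update g k (a', b)) (fun j => by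
      by_cases hj : j = k
      · subst hj; simp
      · simp [Function.update_of_ne hj])
    have h2 := dt0 h (Function.update g k (a', b)) (Function.update g k (a, b)) (fun j => by
      by_cases hj : j = k
      · subst hj; simp
      · simp [Function.update_of_ne hj])
    rw [single_sum _ k (fun j hj => by simp [Function.update_of_ne hj])] at h1 h2
    simp only [Function.update_self] at h1 h2
    have h3 : (0 : ℝ) < (a' : ℝ) - a := sub_pos.2 (by exact_mod_cast hlt)
    by_contra hc
    push Not at hc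
    have := mul_pos h3 (sub_pos.2 hc)
    linarith

theorem single1 (h : DT X pay) (g : Fin n → T) (k : Fin n) (a : ℝ≥0) {b b' : ℝ≥0}
    (hbb : b ≤ b') : ind (X (pr (Function.update g k (a, b))) k)
      ≤ ind (X (pr (Function.update g k (a, b'))) k) := by
  rcases hbb.eq_or_lt with rfl | hlt
  · exact le_rfl
  · have h1 := dt1 h (Function.update g k (a, b)) (Function.update g k (a, b')) (fun j => by
      by_cases hj : j = k
      · subst hj; simp
      · simp [Function.update_of_ne hj])
    have h2 := dt1 h (Function.update g k (a, b')) (Function.update g k (a, b)) (fun j => by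
      by_cases hj : j = k
      · subst hj; simp
      · simp [Function.update_of_ne hj])
    rw [single_sum _ k (fun j hj => by simp [Function.update_of_ne hj])] at h1 h2
    simp only [Function.update_self] at h1 h2
    have h3 : (0 : ℝ) < (b' : ℝ) - b := sub_pos.2 (by exact_mod_cast hlt)
    by_contra hc
    push Not at hc
    have := mul_pos h3 (sub_pos.2 hc)
    linarith

/-! ### Environments -/

/-- null jobs -/
def tp (β : ℝ≥0) (τ : Fin n → Bool) : Fin n → T := fun k => nul β β (τ k)

/-- two real jobs among null jobs -/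
def up (β : ℝ≥0) (τ : Fin n → Bool) (a b : Fin n) (s t : T) : Fin n → T :=
  Function.update (Function.update (tp β τ) a s) b t

theorem up_b (β : ℝ≥0) (τ : Fin n → Bool) (a b : Fin n) (s t : T) : up β τ a b s t b = t := by
  unfold up; rw [Function.update_self]

theorem up_a (β : ℝ≥0) (τ : Fin n → Bool) {a b : Fin n} (hab : a ≠ b) (s t : T) :
    up β τ a b s t a = s := by
  unfold up; rw [Function.update_of_ne hab, Function.update_self]

theorem up_k (β : ℝ≥0) (τ : Fin n → Bool) {a b k : Fin n} (ha : k ≠ a) (hb : k ≠ b) (s t : T) :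
    up β τ a b s t k = nul β β (τ k) := by
  unfold up; rw [Function.update_of_ne hb, Function.update_of_ne ha]; rfl

theorem up_swap (β : ℝ≥0) (τ : Fin n → Bool) {a b : Fin n} (hab : a ≠ b) (s t : T) :
    up β τ a b s t = up β τ b a t s := by
  unfold up; rw [Function.update_comm hab]

theorem up_nul_b (β : ℝ≥0) (τ : Fin n → Bool) {a b : Fin n} (hab : a ≠ b) (s : T) :
    up β τ a b s (nul β β (τ b)) = Function.update (tp β τ) a s := by
  unfold up
  have : nul β β (τ b) = (Function.update (tp β τ) a s) b := by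
    rw [Function.update_of_ne hab.symm]; rfl
  rw [this, Function.update_eq_self]

theorem up_nul_a (β : ℝ≥0) (τ : Fin n → Bool) {a b : Fin n} (hab : a ≠ b) (t : T) :
    up β τ a b (nul β β (τ a)) t = Function.update (tp β τ) b t := by
  rw [up_swap β τ hab, up_nul_b β τ hab.symm]

theorem two_sum {a b : Fin n} (hab : a ≠ b) (g : Fin n → ℝ)
    (h : ∀ k, k ≠ a → k ≠ b → g k = 0) : ∑ k, g k = g a + g b :=
  Fintype.sum_eq_add a b hab fun k hk => h k hk.1 hk.2

theorem two_le {a b : Fin n} (hab : a ≠ b) (g : Fin n → ℝ) (h : ∀ k, 0 ≤ g k) :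
    g a + g b ≤ ∑ k, g k := by
  rw [← Finset.sum_pair hab]
  exact Finset.sum_le_sum_of_subset_of_nonneg (Finset.subset_univ _) fun k _ _ => h k

/-! ### Sums over ordered pairs -/

/-- ordered pairs of positions -/
abbrev Pr (n : ℕ) := {p : Fin n × Fin n // p.1 ≠ p.2}

theorem pair_sum (F : Fin n → Fin n → ℝ) :
    ∑ p : Pr n, F p.1.1 p.1.2 = ∑ a, ∑ b, F a b - ∑ a, F a a := by
  have h1 : ∑ p : Pr n, F p.1.1 p.1.2
      = ∑ p ∈ (univ : Finset (Fin n × Fin n)) with p.1 ≠ p.2, F p.1 p.2 :=
    (Finset.sum_subtype _ (by simp) (fun p : Fin n × Fin n => F p.1 p.2)).symm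
  rw [h1, Finset.sum_filter, Fintype.sum_prod_type, ← Finset.sum_sub_distrib]
  refine Finset.sum_congr rfl fun a _ => ?_
  have : ∀ b, (if a ≠ b then F a b else 0) = F a b - (if a = b then F a b else 0) := by
    intro b
    by_cases h : a = b
    · simp [h]
    · simp [h]
  simp only [this, Finset.sum_sub_distrib, Finset.sum_ite_eq, Finset.mem_univ, if_true]

theorem pair_swap (F : Fin n → Fin n → ℝ) :
    ∑ p : Pr n, F p.1.2 p.1.1 = ∑ p : Pr n, F p.1.1 p.1.2 := by
  have h1 := pair_sum (fun a b => F b a)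
  rw [h1, pair_sum F, Finset.sum_comm]

theorem pair_fst (G : Fin n → ℝ) : ∑ p : Pr n, G p.1.1 = ((n : ℝ) - 1) * ∑ a, G a := by
  rw [pair_sum (fun a _ => G a)]
  simp only [Finset.sum_const, Finset.card_univ, Fintype.card_fin, nsmul_eq_mul]
  rw [← Finset.mul_sum]
  ring

theorem pair_snd (G : Fin n → ℝ) : ∑ p : Pr n, G p.1.2 = ((n : ℝ) - 1) * ∑ a, G a := by
  rw [pair_swap (fun a _ => G a), pair_fst]

theorem pair_const (x : ℝ) : ∑ _p : Pr n, x = (n : ℝ) * (n - 1) * x := by
  have := pair_fst (n := n) (fun _ => x)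
  rw [this, Finset.sum_const, Finset.card_univ, Fintype.card_fin, nsmul_eq_mul]
  ring

/-! ### Averages over environments -/

theorem flip_sum (b : Fin n) (e : Bool) (h : (Fin n → Bool) → ℝ)
    (hinv : ∀ τ x, h (Function.update τ b x) = h τ) :
    ∑ τ, h τ = 2 * ∑ τ, (if τ b = e then h τ else 0) := by
  have hφ : Function.Involutive (fun τ : Fin n → Bool => Function.update τ b (!(τ b))) := by
    intro τ
    simp
  let φ : Equiv.Perm (Fin n → Bool) := Function.Involutive.toPerm _ hφ
  have h1 := Equiv.sum_comp φ (fun τ => if τ b = (!e) then h τ else 0)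
  have h2 : ∀ τ : Fin n → Bool, (if (φ τ) b = (!e) then h (φ τ) else 0)
      = if τ b = e then h τ else 0 := by
    intro τ
    have e1 : φ τ = Function.update τ b (!(τ b)) := rfl
    rw [e1, Function.update_self, hinv]
    have : ((!(τ b)) = (!e)) ↔ (τ b = e) := by simp
    simp only [this]
  simp only [h2] at h1
  have h3 : ∀ τ : Fin n → Bool, h τ = (if τ b = e then h τ else 0)
      + (if τ b = (!e) then h τ else 0) := by
    intro τ
    by_cases hb : τ b = e
    · have : ¬ τ b = (!e) := by rw [hb]; simp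
      rw [if_pos hb, if_neg this, add_zero]
    · have : τ b = (!e) := by
        revert hb; cases τ b <;> cases e <;> simp
      rw [if_neg hb, if_pos this, zero_add]
  calc ∑ τ, h τ = ∑ τ, ((if τ b = e then h τ else 0) + (if τ b = (!e) then h τ else 0)) :=
        Finset.sum_congr rfl fun τ _ => h3 τ
    _ = _ := by rw [Finset.sum_add_distrib, ← h1]; ring

/-- misplacement of a null job of type `e` -/
def mis (e : Bool) (x : Fin 2) : ℝ := if e then 1 - ind x else ind x

theorem mis_nonneg (e : Bool) (x : Fin 2) : 0 ≤ mis e x := by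
  unfold mis; split_ifs
  · linarith [ind_le x]
  · exact ind_nonneg x

theorem bad_key (β : ℝ≥0) (τ : Fin n → Bool) (a : Fin n) (s : T) (e : Bool)
    (σ : Fin n → Fin 2) :
    β * ∑ b, (if b ≠ a ∧ τ b = e then mis e (σ b) else 0)
      ≤ mks (pr (Function.update (tp β τ) a s)) σ := by
  rw [mks_pr, Finset.mul_sum]
  cases e
  · refine le_max_of_le_left (Finset.sum_le_sum fun k _ => ?_)
    split_ifs with h
    · rw [Function.update_of_ne h.1]
      simp only [tp, nul, h.2, mis, Bool.false_eq_true, if_false]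
      rw [mul_comm]
    · rw [mul_zero]
      exact mul_nonneg (ind_nonneg _) (NNReal.coe_nonneg _)
  · refine le_max_of_le_right (Finset.sum_le_sum fun k _ => ?_)
    split_ifs with h
    · rw [Function.update_of_ne h.1]
      simp only [tp, nul, h.2, mis, if_true]
      rw [mul_comm]
    · rw [mul_zero]
      exact mul_nonneg (by linarith [ind_le (σ k)]) (NNReal.coe_nonneg _)

/-- the assignment which puts every null job on its free machine -/
def sg (τ : Fin n → Bool) : Fin n → Fin 2 := fun k => if τ k then 0 else 1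

theorem opt_one (β : ℝ≥0) (τ : Fin n → Bool) (a : Fin n) (s : T) :
    mks (pr (Function.update (tp β τ) a s)) (Function.update (sg τ) a 0) ≤ s.1 + s.2 := by
  rw [mks_pr, single_sum _ a, single_sum _ a]
  · simp only [Function.update_self, ind, if_true]
    refine max_le ?_ ?_
    · linarith [NNReal.coe_nonneg s.2]
    · have := NNReal.coe_nonneg s.1
      have := NNReal.coe_nonneg s.2
      linarith
  · intro k hk
    rw [Function.update_of_ne hk, Function.update_of_ne hk]
    simp only [sg, tp, nul, ind]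
    by_cases hτ : τ k = true <;> simp [hτ]
  · intro k hk
    rw [Function.update_of_ne hk, Function.update_of_ne hk]
    simp only [sg, tp, nul, ind]
    by_cases hτ : τ k = true <;> simp [hτ]

theorem opt_two (β : ℝ≥0) (τ : Fin n → Bool) {a b : Fin n} (hab : a ≠ b) (s t : T) :
    mks (pr (up β τ a b s t)) (Function.update (Function.update (sg τ) a 0) b 1)
      = max (s.1 : ℝ) t.2 := by
  have z1 : ∀ k, k ≠ a → k ≠ b → ind (Function.update (Function.update (sg τ) a 0) b 1 k)
      * ((up β τ a b s t k).1 : ℝ) = 0 := by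
    intro k ha hb
    rw [Function.update_of_ne hb, Function.update_of_ne ha, up_k β τ ha hb]
    simp only [sg, nul, ind]
    by_cases hτ : τ k = true <;> simp [hτ]
  have z2 : ∀ k, k ≠ a → k ≠ b → (1 - ind (Function.update (Function.update (sg τ) a 0) b 1 k))
      * ((up β τ a b s t k).2 : ℝ) = 0 := by
    intro k ha hb
    rw [Function.update_of_ne hb, Function.update_of_ne ha, up_k β τ ha hb]
    simp only [sg, nul, ind]
    by_cases hτ : τ k = true <;> simp [hτ]
  rw [mks_pr, two_sum hab _ z1, two_sum hab _ z2, up_a β τ hab, up_b]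
  rw [Function.update_self, Function.update_of_ne hab, Function.update_self]
  simp [ind]

theorem opt_two' (β : ℝ≥0) (τ : Fin n → Bool) {a b : Fin n} (hab : a ≠ b) (s t : T) :
    mks (pr (up β τ a b s t)) (Function.update (Function.update (sg τ) b 0) a 1)
      = max (s.2 : ℝ) t.1 := by
  rw [up_swap β τ hab, opt_two β τ hab.symm, max_comm]

theorem mks_two (β : ℝ≥0) (τ : Fin n → Bool) {a b : Fin n} (hab : a ≠ b) (s t : T)
    (σ : Fin n → Fin 2) :
    max (s.1 * ind (σ a) + t.1 * ind (σ b)) (s.2 * (1 - ind (σ a)) + t.2 * (1 - ind (σ b)))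
      ≤ mks (pr (up β τ a b s t)) σ := by
  rw [mks_pr]
  have h1 := two_le hab (fun k => ind (σ k) * ((up β τ a b s t k).1 : ℝ))
    (fun k => mul_nonneg (ind_nonneg _) (NNReal.coe_nonneg _))
  have h2 := two_le hab (fun k => (1 - ind (σ k)) * ((up β τ a b s t k).2 : ℝ))
    (fun k => mul_nonneg (by linarith [ind_le (σ k)]) (NNReal.coe_nonneg _))
  simp only [up_a β τ hab, up_b] at h1 h2
  exact max_le_max (by linarith) (by linarith)

/-! ### The system -/

/-- finite families of mechanisms, with the cost bound on the relevant profiles -/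
structure Fam (n : ℕ) (c : ℝ) (β : ℝ≥0) (D : Finset T) where
  R : Type
  [fin : Fintype R]
  w : R → ℝ
  X : R → Prof n → Fin n → Fin 2
  pay : R → Prof n → Fin 2 → ℝ
  w0 : ∀ r, 0 ≤ w r
  w1 : ∑ r, w r = 1
  dt : ∀ r, DT (X r) (pay r)
  cost : ∀ s ∈ D, ∀ t ∈ D, ∀ τ a b σ,
    ∑ r, w r * mks (pr (up β τ a b s t)) (X r (pr (up β τ a b s t)))
      ≤ c * mks (pr (up β τ a b s t)) σ
  cost0 : ∀ s ∈ D, ∀ τ a σ,
    ∑ r, w r * mks (pr (Function.update (tp β τ) a s)) (X r (pr (Function.update (tp β τ) a s)))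
      ≤ c * mks (pr (Function.update (tp β τ) a s)) σ

attribute [instance] Fam.fin

theorem exists_fam {c : ℝ} (h : HasUT n c) (β : ℝ≥0) (D : Finset T) :
    Nonempty (Fam n c β D) := by
  classical
  let B1 : Finset (Prof n) :=
    (univ : Finset ((Fin n → Bool) × Fin n × Fin n × D × D)).image
      (fun q => pr (up β q.1 q.2.1 q.2.2.1 q.2.2.2.1.1 q.2.2.2.2.1))
  let B2 : Finset (Prof n) :=
    (univ : Finset ((Fin n → Bool) × Fin n × D)).image
      (fun q => pr (Function.update (tp β q.1) q.2.1 q.2.2.1))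
  obtain ⟨R, _, w, X, pay, h0, h1, h2, h3⟩ := finite_family h (B1 ∪ B2) (by
    intro b hb i k
    rcases Finset.mem_union.1 hb with hb | hb
    · obtain ⟨q, -, rfl⟩ := Finset.mem_image.1 hb
      exact pr_nonneg _ _ _
    · obtain ⟨q, -, rfl⟩ := Finset.mem_image.1 hb
      exact pr_nonneg _ _ _)
  refine ⟨⟨R, w, X, pay, h0, h1, h2, fun s hs t ht τ a b σ => h3 _ ?_ σ,
    fun s hs τ a σ => h3 _ ?_ σ⟩⟩
  · exact Finset.mem_union_left _ (Finset.mem_image.2
      ⟨(τ, a, b, ⟨s, hs⟩, ⟨t, ht⟩), Finset.mem_univ _, rfl⟩)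
  · exact Finset.mem_union_right _ (Finset.mem_image.2
      ⟨(τ, a, ⟨s, hs⟩), Finset.mem_univ _, rfl⟩)

namespace Fam

variable {c : ℝ} {β : ℝ≥0} {D : Finset T} (S : Fam n c β D)

/-- normalisation -/
def cc (n : ℕ) : ℝ := 1 / (2 ^ n * ((n : ℝ) * (n - 1)))

theorem cc_nonneg (hn : 2 ≤ n) : 0 ≤ cc n := by
  have h1 : (2 : ℝ) ≤ n := by exact_mod_cast hn
  have h2 : (0 : ℝ) ≤ (n : ℝ) - 1 := by linarith
  unfold cc
  positivity

theorem cc_mul (hn : 2 ≤ n) : cc n * (2 ^ n * ((n : ℝ) * (n - 1))) = 1 := by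
  have h1 : (2 : ℝ) ≤ n := by exact_mod_cast hn
  have h2 : (0 : ℝ) < (n : ℝ) - 1 := by linarith
  have h3 : (0 : ℝ) < 2 ^ n * ((n : ℝ) * (n - 1)) := by positivity
  unfold cc
  exact one_div_mul_cancel h3.ne'

theorem sumZ (F : S.R × (Fin n → Bool) × Pr n → ℝ) :
    ∑ z, (S.w z.1 * cc n) * F z = cc n * ∑ τ, ∑ p, ∑ r, S.w r * F (r, τ, p) := by
  rw [Fintype.sum_prod_type]
  simp only [Fintype.sum_prod_type]
  rw [Finset.sum_comm, Finset.mul_sum]
  refine Finset.sum_congr rfl fun τ _ => ?_
  rw [Finset.sum_comm, Finset.mul_sum]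
  refine Finset.sum_congr rfl fun p _ => ?_
  rw [Finset.mul_sum]
  exact Finset.sum_congr rfl fun r _ => by ring

theorem sum_const_env (x : ℝ) : ∑ _τ : Fin n → Bool, x = 2 ^ n * x := by
  rw [Finset.sum_const, Finset.card_univ, Fintype.card_fun, Fintype.card_bool, Fintype.card_fin,
    nsmul_eq_mul]
  push_cast
  ring

theorem avg_le (hn : 2 ≤ n) (F : S.R × (Fin n → Bool) × Pr n → ℝ) {B : ℝ}
    (h : ∀ τ p, ∑ r, S.w r * F (r, τ, p) ≤ B) : ∑ z, (S.w z.1 * cc n) * F z ≤ B := by
  rw [S.sumZ]
  calc cc n * ∑ τ, ∑ p, ∑ r, S.w r * F (r, τ, p) ≤ cc n * ∑ τ : Fin n → Bool, ∑ p : Pr n, B :=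
        mul_le_mul_of_nonneg_left (Finset.sum_le_sum fun τ _ => Finset.sum_le_sum fun p _ =>
          h τ p) (cc_nonneg hn)
    _ = B := by
        simp only [pair_const]
        rw [sum_const_env]
        have := cc_mul hn
        linear_combination B * this

/-- the mean number of misplaced null jobs -/
theorem bad_sum (hn : 2 ≤ n) (hc : 0 ≤ c) (hβ : 0 < β) {s : T} (hs : s ∈ D) (e : Bool) :
    cc n * ∑ τ, ∑ p : Pr n, ∑ r, S.w r
        * mis e (S.X r (pr (up β τ p.1.1 p.1.2 s (nul β β e))) p.1.2)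
      ≤ 2 * c / (β * ((n : ℝ) - 1)) * (s.1 + s.2) := by
  have h1n : (2 : ℝ) ≤ n := by exact_mod_cast hn
  have h2n : (0 : ℝ) < (n : ℝ) - 1 := by linarith
  have hβ' : (0 : ℝ) < β := by exact_mod_cast hβ
  -- flip the environment at the null position
  have e1 : ∑ τ, ∑ p : Pr n, ∑ r, S.w r
        * mis e (S.X r (pr (up β τ p.1.1 p.1.2 s (nul β β e))) p.1.2)
      = 2 * ∑ τ, ∑ p : Pr n, ∑ r, S.w r * (if τ p.1.2 = e then
        mis e (S.X r (pr (Function.update (tp β τ) p.1.1 s)) p.1.2) else 0) := by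
    rw [Finset.sum_comm, Finset.sum_comm (f := fun τ (p : Pr n) => ∑ r, S.w r
      * (if τ p.1.2 = e then mis e (S.X r (pr (Function.update (tp β τ) p.1.1 s)) p.1.2)
        else 0)), Finset.mul_sum]
    refine Finset.sum_congr rfl fun p _ => ?_
    rw [flip_sum p.1.2 e]
    · congr 1
      refine Finset.sum_congr rfl fun τ _ => ?_
      split_ifs with h
      · refine Finset.sum_congr rfl fun r _ => ?_
        rw [← h, up_nul_b β τ p.2]
      · simp
    · intro τ x
      refine Finset.sum_congr rfl fun r _ => ?_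
      have : up β (Function.update τ p.1.2 x) p.1.1 p.1.2 s (nul β β e)
          = up β τ p.1.1 p.1.2 s (nul β β e) := by
        funext k
        by_cases hb : k = p.1.2
        · rw [hb, up_b, up_b]
        · by_cases ha : k = p.1.1
          · rw [ha, up_a _ _ p.2, up_a _ _ p.2]
          · rw [up_k _ _ ha hb, up_k _ _ ha hb, Function.update_of_ne hb]
      rw [this]
  rw [e1]
  -- count the misplaced jobs
  have e2 : ∀ τ, ∑ p : Pr n, ∑ r, S.w r * (if τ p.1.2 = e then
        mis e (S.X r (pr (Function.update (tp β τ) p.1.1 s)) p.1.2) else 0)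
      ≤ ∑ a : Fin n, (c * (s.1 + s.2)) / β := by
    intro τ
    have h1 : ∑ p : Pr n, ∑ r, S.w r * (if τ p.1.2 = e then
        mis e (S.X r (pr (Function.update (tp β τ) p.1.1 s)) p.1.2) else 0)
        = ∑ a, ∑ r, S.w r * ∑ b, (if b ≠ a ∧ τ b = e then
          mis e (S.X r (pr (Function.update (tp β τ) a s)) b) else 0) := by
      rw [pair_sum (fun a b => ∑ r, S.w r * (if τ b = e then
        mis e (S.X r (pr (Function.update (tp β τ) a s)) b) else 0)),
        ← Finset.sum_sub_distrib]
      refine Finset.sum_congr rfl fun a _ => ?_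
      rw [Finset.sum_comm, ← Finset.sum_sub_distrib]
      refine Finset.sum_congr rfl fun r _ => ?_
      rw [← Finset.mul_sum, ← mul_sub]
      congr 1
      have : ∀ b, (if b ≠ a ∧ τ b = e then
          mis e (S.X r (pr (Function.update (tp β τ) a s)) b) else 0)
          = (if τ b = e then mis e (S.X r (pr (Function.update (tp β τ) a s)) b) else 0)
            - (if a = b then (if τ b = e then
              mis e (S.X r (pr (Function.update (tp β τ) a s)) b) else 0) else 0) := by
        intro b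
        by_cases hb : a = b
        · subst hb; simp
        · have hb' : b ≠ a := fun h => hb h.symm
          simp [hb, hb']
      simp only [this, Finset.sum_sub_distrib, Finset.sum_ite_eq, Finset.mem_univ, if_true]
    rw [h1]
    refine Finset.sum_le_sum fun a _ => ?_
    rw [le_div_iff₀ hβ', Finset.sum_mul]
    calc ∑ r, S.w r * (∑ b, (if b ≠ a ∧ τ b = e then
          mis e (S.X r (pr (Function.update (tp β τ) a s)) b) else 0)) * β
        ≤ ∑ r, S.w r * mks (pr (Function.update (tp β τ) a s))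
            (S.X r (pr (Function.update (tp β τ) a s))) := by
          refine Finset.sum_le_sum fun r _ => ?_
          rw [mul_assoc]
          refine mul_le_mul_of_nonneg_left ?_ (S.w0 r)
          rw [mul_comm]
          exact bad_key β τ a s e _
      _ ≤ c * mks (pr (Function.update (tp β τ) a s)) (Function.update (sg τ) a 0) :=
          S.cost0 s hs τ a _
      _ ≤ c * (s.1 + s.2) := mul_le_mul_of_nonneg_left (opt_one β τ a s) hc
  calc cc n * (2 * ∑ τ, ∑ p : Pr n, ∑ r, S.w r * (if τ p.1.2 = e then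
        mis e (S.X r (pr (Function.update (tp β τ) p.1.1 s)) p.1.2) else 0))
      ≤ cc n * (2 * ∑ _τ : Fin n → Bool, ∑ _a : Fin n, (c * (s.1 + s.2)) / β) := by
        refine mul_le_mul_of_nonneg_left ?_ (cc_nonneg hn)
        exact mul_le_mul_of_nonneg_left (Finset.sum_le_sum fun τ _ => e2 τ) (by norm_num)
    _ = _ := by
        rw [sum_const_env, Finset.sum_const, Finset.card_univ, Fintype.card_fin, nsmul_eq_mul]
        unfold cc
        have : (0 : ℝ) < n := by linarith
        field_simp

/-- the system of a finite family of mechanisms -/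
def sys (hn : 2 ≤ n) (hc : 0 ≤ c) (hβ : 0 < β) {e η : ℝ}
    (he : 2 * c / (β * ((n : ℝ) - 1)) ≤ e) (hη : 1 / ((n : ℝ) - 1) ≤ η) :
    Sys c (↑D) e η β where
  Z := S.R × (Fin n → Bool) × Pr n
  wt := fun z => S.w z.1 * cc n
  wt_nonneg := fun z => mul_nonneg (S.w0 _) (cc_nonneg hn)
  wt_sum := by
    have h := S.sumZ (fun _ => 1)
    simp only [mul_one, S.w1, pair_const] at h
    rw [h, sum_const_env]
    have := cc_mul hn
    linear_combination this
  P1 := fun z s t => ind (S.X z.1 (pr (up β z.2.1 z.2.2.1.1 z.2.2.1.2 s t)) z.2.2.1.1)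
  P2 := fun z s t => ind (S.X z.1 (pr (up β z.2.1 z.2.2.1.1 z.2.2.1.2 s t)) z.2.2.1.2)
  P1_01 := fun z s t => ind_01 _
  P2_01 := fun z s t => ind_01 _
  V := fun z s t => U0 (S.X z.1) (S.pay z.1) (up β z.2.1 z.2.2.1.1 z.2.2.1.2 s t)
  Y := fun z s t => U1 (S.X z.1) (S.pay z.1) (up β z.2.1 z.2.2.1.1 z.2.2.1.2 s t)
  hV := fun z s1 s1' s2 t1 t1' t2 => by
    obtain ⟨r, τ, ⟨⟨a, b⟩, hab⟩⟩ := z
    simp only at hab ⊢
    have h := dt0 (S.dt r) (up β τ a b (s1, s2) (t1, t2)) (up β τ a b (s1', s2) (t1', t2))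
      (fun k => by
        by_cases hb : k = b
        · rw [hb, up_b, up_b]
        · by_cases ha : k = a
          · rw [ha, up_a _ _ hab, up_a _ _ hab]
          · rw [up_k _ _ ha hb, up_k _ _ ha hb])
    rw [two_sum hab _ (fun k ha hb => by rw [up_k _ _ ha hb, up_k _ _ ha hb]; simp)] at h
    simp only [up_b, up_a β τ hab] at h
    linarith
  hY := fun z s1 s2 s2' t1 t2 t2' => by
    obtain ⟨r, τ, ⟨⟨a, b⟩, hab⟩⟩ := z
    simp only at hab ⊢
    have h := dt1 (S.dt r) (up β τ a b (s1, s2) (t1, t2)) (up β τ a b (s1, s2') (t1, t2'))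
      (fun k => by
        by_cases hb : k = b
        · rw [hb, up_b, up_b]
        · by_cases ha : k = a
          · rw [ha, up_a _ _ hab, up_a _ _ hab]
          · rw [up_k _ _ ha hb, up_k _ _ ha hb])
    rw [two_sum hab _ (fun k ha hb => by rw [up_k _ _ ha hb, up_k _ _ ha hb]; simp)] at h
    simp only [up_b, up_a β τ hab] at h
    linarith
  b1 := fun _ => β
  b2 := fun _ => β
  hb1 := fun _ => le_rfl
  hb2 := fun _ => le_rfl
  ea := fun z => z.2.1 z.2.2.1.1
  eb := fun z => z.2.1 z.2.2.1.2
  bad1 := fun s hs => by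
    rw [S.sumZ]
    have h := S.bad_sum hn hc hβ (Finset.mem_coe.1 hs) true
    have h0 : 0 ≤ (s.1 : ℝ) + s.2 := by positivity
    exact h.trans (mul_le_mul_of_nonneg_right he h0)
  bad2 := fun s hs => by
    rw [S.sumZ]
    have h := S.bad_sum hn hc hβ (Finset.mem_coe.1 hs) false
    have h0 : 0 ≤ (s.1 : ℝ) + s.2 := by positivity
    exact h.trans (mul_le_mul_of_nonneg_right he h0)
  bad3 := fun t ht => by
    rw [S.sumZ]
    have h := S.bad_sum hn hc hβ (Finset.mem_coe.1 ht) true
    have h0 : 0 ≤ (t.1 : ℝ) + t.2 := by positivity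
    refine le_trans (le_of_eq ?_) (h.trans (mul_le_mul_of_nonneg_right he h0))
    congr 1
    refine Finset.sum_congr rfl fun τ _ => ?_
    rw [← pair_swap (fun a b => ∑ r, S.w r * mis true (S.X r (pr (up β τ a b t
      (nul β β true))) b))]
    refine Finset.sum_congr rfl fun p _ => Finset.sum_congr rfl fun r _ => ?_
    rw [up_swap β τ p.2]
    rfl
  bad4 := fun t ht => by
    rw [S.sumZ]
    have h := S.bad_sum hn hc hβ (Finset.mem_coe.1 ht) false
    have h0 : 0 ≤ (t.1 : ℝ) + t.2 := by positivity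
    refine le_trans (le_of_eq ?_) (h.trans (mul_le_mul_of_nonneg_right he h0))
    congr 1
    refine Finset.sum_congr rfl fun τ _ => ?_
    rw [← pair_swap (fun a b => ∑ r, S.w r * mis false (S.X r (pr (up β τ a b t
      (nul β β false))) b))]
    refine Finset.sum_congr rfl fun p _ => Finset.sum_congr rfl fun r _ => ?_
    rw [up_swap β τ p.2]
    rfl
  cost1 := fun s hs t ht => by
    refine S.avg_le hn _ fun τ p => ?_
    have h := S.cost s (Finset.mem_coe.1 hs) t (Finset.mem_coe.1 ht) τ p.1.1 p.1.2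
      (Function.update (Function.update (sg τ) p.1.1 0) p.1.2 1)
    rw [opt_two β τ p.2] at h
    refine le_trans (Finset.sum_le_sum fun r _ => ?_) h
    exact mul_le_mul_of_nonneg_left (mks_two β τ p.2 s t _) (S.w0 r)
  cost2 := fun s hs t ht => by
    refine S.avg_le hn _ fun τ p => ?_
    have h := S.cost s (Finset.mem_coe.1 hs) t (Finset.mem_coe.1 ht) τ p.1.1 p.1.2
      (Function.update (Function.update (sg τ) p.1.2 0) p.1.1 1)
    rw [opt_two' β τ p.2] at h
    refine le_trans (Finset.sum_le_sum fun r _ => ?_) h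
    exact mul_le_mul_of_nonneg_left (mks_two β τ p.2 s t _) (S.w0 r)
  K := fun z s => (1 / (n : ℝ)) * ∑ k, ind (S.X z.1 (pr (Function.update (tp β z.2.1) k s)) k)
  K0 := fun z s => mul_nonneg (by positivity) (Finset.sum_nonneg fun k _ => ind_nonneg _)
  K1 := fun z s => by
    have h1 : ∑ k, ind (S.X z.1 (pr (Function.update (tp β z.2.1) k s)) k) ≤ ∑ k : Fin n, 1 :=
      Finset.sum_le_sum fun k _ => ind_le _
    rw [Finset.sum_const, Finset.card_univ, Fintype.card_fin, nsmul_eq_mul, mul_one] at h1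
    have h2 : (0 : ℝ) < n := by exact_mod_cast (by omega : 0 < n)
    rw [one_div, inv_mul_le_iff₀ h2, mul_one]
    exact h1
  Kanti := fun z a a' b h => mul_le_mul_of_nonneg_left
    (Finset.sum_le_sum fun k _ => single0 (S.dt z.1) _ k h b) (by positivity)
  Kmono := fun z a b b' h => mul_le_mul_of_nonneg_left
    (Finset.sum_le_sum fun k _ => single1 (S.dt z.1) _ k a h) (by positivity)
  kE1 := fun s => by
    have h2 : (0 : ℝ) < n := by exact_mod_cast (by omega : 0 < n)
    rw [S.sumZ, S.sumZ]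
    congr 1
    refine Finset.sum_congr rfl fun τ _ => ?_
    refine Finset.sum_comm.trans (Eq.trans ?_ Finset.sum_comm)
    refine Finset.sum_congr rfl fun r _ => ?_
    rw [← Finset.mul_sum, ← Finset.mul_sum]
    congr 1
    simp only
    rw [pair_const]
    have e1 : ∀ p : Pr n, ind (S.X r (pr (up β τ p.1.1 p.1.2 s (nul β β (τ p.1.2)))) p.1.1)
        = ind (S.X r (pr (Function.update (tp β τ) p.1.1 s)) p.1.1) := fun p => by
      rw [up_nul_b β τ p.2]
    simp only [e1]
    rw [pair_fst (fun a => ind (S.X r (pr (Function.update (tp β τ) a s)) a))]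
    field_simp
  kE2 := fun s => by
    have h2 : (0 : ℝ) < n := by exact_mod_cast (by omega : 0 < n)
    rw [S.sumZ, S.sumZ]
    congr 1
    refine Finset.sum_congr rfl fun τ _ => ?_
    refine Finset.sum_comm.trans (Eq.trans ?_ Finset.sum_comm)
    refine Finset.sum_congr rfl fun r _ => ?_
    rw [← Finset.mul_sum, ← Finset.mul_sum]
    congr 1
    simp only
    rw [pair_const]
    have e1 : ∀ p : Pr n, ind (S.X r (pr (up β τ p.1.1 p.1.2 (nul β β (τ p.1.1)) s)) p.1.2)
        = ind (S.X r (pr (Function.update (tp β τ) p.1.2 s)) p.1.2) := fun p => by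
      rw [up_nul_a β τ p.2]
    simp only [e1]
    rw [pair_snd (fun a => ind (S.X r (pr (Function.update (tp β τ) a s)) a))]
    field_simp
  kE3 := fun s t => by
    have h2 : (0 : ℝ) < n := by exact_mod_cast (by omega : 0 < n)
    have h1n : (2 : ℝ) ≤ n := by exact_mod_cast hn
    have h2n : (0 : ℝ) < (n : ℝ) - 1 := by linarith
    rw [S.sumZ, S.sumZ, ← mul_sub, ← Finset.sum_sub_distrib, abs_mul,
      abs_of_nonneg (cc_nonneg hn)]
    have key : ∀ τ : Fin n → Bool, |(∑ p : Pr n, ∑ r, S.w r
          * (ind (S.X r (pr (up β τ p.1.1 p.1.2 s (nul β β (τ p.1.2)))) p.1.1)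
            * ind (S.X r (pr (up β τ p.1.1 p.1.2 (nul β β (τ p.1.1)) t)) p.1.2)))
        - ∑ p : Pr n, ∑ r, S.w r
          * ((1 / (n : ℝ)) * (∑ k, ind (S.X r (pr (Function.update (tp β τ) k s)) k))
            * ((1 / (n : ℝ)) * ∑ k, ind (S.X r (pr (Function.update (tp β τ) k t)) k)))|
        ≤ n := by
      intro τ
      have c1 : (∑ p : Pr n, ∑ r, S.w r
          * (ind (S.X r (pr (up β τ p.1.1 p.1.2 s (nul β β (τ p.1.2)))) p.1.1)
            * ind (S.X r (pr (up β τ p.1.1 p.1.2 (nul β β (τ p.1.1)) t)) p.1.2)))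
          = ∑ r, ∑ p : Pr n, S.w r
          * (ind (S.X r (pr (up β τ p.1.1 p.1.2 s (nul β β (τ p.1.2)))) p.1.1)
            * ind (S.X r (pr (up β τ p.1.1 p.1.2 (nul β β (τ p.1.1)) t)) p.1.2)) :=
        Finset.sum_comm
      have c2 : (∑ p : Pr n, ∑ r, S.w r
          * ((1 / (n : ℝ)) * (∑ k, ind (S.X r (pr (Function.update (tp β τ) k s)) k))
            * ((1 / (n : ℝ)) * ∑ k, ind (S.X r (pr (Function.update (tp β τ) k t)) k))))
          = ∑ r, ∑ p : Pr n, S.w r
          * ((1 / (n : ℝ)) * (∑ k, ind (S.X r (pr (Function.update (tp β τ) k s)) k))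
            * ((1 / (n : ℝ)) * ∑ k, ind (S.X r (pr (Function.update (tp β τ) k t)) k))) :=
        Finset.sum_comm
      rw [c1, c2, ← Finset.sum_sub_distrib]
      have e1 : ∀ r, (∑ p : Pr n, S.w r
          * (ind (S.X r (pr (up β τ p.1.1 p.1.2 s (nul β β (τ p.1.2)))) p.1.1)
            * ind (S.X r (pr (up β τ p.1.1 p.1.2 (nul β β (τ p.1.1)) t)) p.1.2)))
          - ∑ p : Pr n, S.w r
          * ((1 / (n : ℝ)) * (∑ k, ind (S.X r (pr (Function.update (tp β τ) k s)) k))
            * ((1 / (n : ℝ)) * ∑ k, ind (S.X r (pr (Function.update (tp β τ) k t)) k)))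
          = S.w r * ((1 / (n : ℝ)) * ((∑ k, ind (S.X r (pr (Function.update (tp β τ) k s)) k))
              * ∑ k, ind (S.X r (pr (Function.update (tp β τ) k t)) k))
            - ∑ a, ind (S.X r (pr (Function.update (tp β τ) a s)) a)
              * ind (S.X r (pr (Function.update (tp β τ) a t)) a)) := by
        intro r
        have e2 : ∀ p : Pr n, S.w r
            * (ind (S.X r (pr (up β τ p.1.1 p.1.2 s (nul β β (τ p.1.2)))) p.1.1)
            * ind (S.X r (pr (up β τ p.1.1 p.1.2 (nul β β (τ p.1.1)) t)) p.1.2))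
            = S.w r * (ind (S.X r (pr (Function.update (tp β τ) p.1.1 s)) p.1.1)
              * ind (S.X r (pr (Function.update (tp β τ) p.1.2 t)) p.1.2)) := fun p => by
          rw [up_nul_b β τ p.2, up_nul_a β τ p.2]
        simp only [e2]
        rw [← Finset.mul_sum, pair_const,
          pair_sum (fun a b => ind (S.X r (pr (Function.update (tp β τ) a s)) a)
            * ind (S.X r (pr (Function.update (tp β τ) b t)) b)), ← Finset.sum_mul_sum]
        field_simp
        ring
      rw [Finset.sum_congr rfl fun r _ => e1 r]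
      refine (Finset.abs_sum_le_sum_abs _ _).trans ?_
      calc _ ≤ ∑ r, S.w r * (n : ℝ) := by
            refine Finset.sum_le_sum fun r _ => ?_
            rw [abs_mul, abs_of_nonneg (S.w0 r)]
            refine mul_le_mul_of_nonneg_left ?_ (S.w0 r)
            set A := ∑ k, ind (S.X r (pr (Function.update (tp β τ) k s)) k) with hA
            set B := ∑ k, ind (S.X r (pr (Function.update (tp β τ) k t)) k) with hB
            set C := ∑ a, ind (S.X r (pr (Function.update (tp β τ) a s)) a)
              * ind (S.X r (pr (Function.update (tp β τ) a t)) a) with hC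
            have cardn : ∑ _k : Fin n, (1 : ℝ) = n := by simp
            have A0 : 0 ≤ A := Finset.sum_nonneg fun k _ => ind_nonneg _
            have B0 : 0 ≤ B := Finset.sum_nonneg fun k _ => ind_nonneg _
            have C0 : 0 ≤ C := Finset.sum_nonneg fun k _ =>
              mul_nonneg (ind_nonneg _) (ind_nonneg _)
            have A1 : A ≤ n := cardn ▸ Finset.sum_le_sum fun k _ => ind_le _
            have B1 : B ≤ n := cardn ▸ Finset.sum_le_sum fun k _ => ind_le _
            have C1 : C ≤ n := cardn ▸ Finset.sum_le_sum fun k _ => by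
              have := mul_le_mul (ind_le (S.X r (pr (Function.update (tp β τ) k s)) k))
                (ind_le (S.X r (pr (Function.update (tp β τ) k t)) k)) (ind_nonneg _)
                zero_le_one
              linarith
            have AB : 1 / (n : ℝ) * (A * B) ≤ n := by
              have : A * B ≤ n * n := mul_le_mul A1 B1 B0 h2.le
              rw [one_div, inv_mul_le_iff₀ h2]
              exact this
            have AB0 : 0 ≤ 1 / (n : ℝ) * (A * B) := by positivity
            exact abs_le.2 ⟨by linarith, by linarith⟩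
        _ = n := by rw [← Finset.sum_mul, S.w1, one_mul]
    calc _ ≤ cc n * ∑ τ : Fin n → Bool, (n : ℝ) := by
          refine mul_le_mul_of_nonneg_left ?_ (cc_nonneg hn)
          exact (Finset.abs_sum_le_sum_abs _ _).trans (Finset.sum_le_sum fun τ _ => key τ)
      _ = 1 / ((n : ℝ) - 1) := by
          rw [sum_const_env]
          unfold cc
          field_simp
      _ ≤ η := hη

end Fam

theorem exists_base {c : ℝ} (h : ∀ n, HasUT n c) : ExL c [] := by
  intro D e η bm he hη hbm
  have hc := c_nonneg (h 1)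
  have hb : (0 : ℝ) < bm := by exact_mod_cast hbm
  obtain ⟨N, hN⟩ := exists_nat_gt (max (1 / η) (2 * c / bm / e))
  have hN1 : 1 / η < N := (le_max_left _ _).trans_lt hN
  have hN2 : 2 * c / bm / e < N := (le_max_right _ _).trans_lt hN
  have hN0 : (0 : ℝ) < N := lt_of_le_of_lt (by positivity) hN1
  have hNpos : 0 < N := by exact_mod_cast hN0
  obtain ⟨S⟩ := exists_fam (h (N + 1)) bm D
  have e1 : ((N + 1 : ℕ) : ℝ) - 1 = N := by push_cast; ring
  refine ⟨S.sys (by omega) hc hbm ?_ ?_, fun p hp => by simp at hp⟩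
  · rw [e1, ← div_div, div_le_iff₀ hN0]
    rw [div_lt_iff₀ he] at hN2
    linarith
  · rw [e1]
    rw [div_lt_iff₀ hη] at hN1
    rw [div_le_iff₀ hN0]
    linarith

end

end Pool.Agent.Lib.MP_2c6a66_lc.UT
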