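import Mathlib

/-! Universally truthful mechanisms and their finite versions. -/

namespace Pool.Agent.Lib.MP_2c6a66_lc.UT

open scoped NNReal Topology
open Finset Filter MeasureTheory

noncomputable section

/-- reports -/
abbrev Prof (n : ℕ) := Fin 2 → Fin n → ℝ

/-- makespan -/
def mks {n : ℕ} (b : Prof n) (σ : Fin n → Fin 2) : ℝ :=
  max (∑ k with σ k = 0, b 0 k) (∑ k with σ k = 1, b 1 k)

/-- truthful deterministic mechanism -/
def DT {n : ℕ} (X : Prof n → Fin n → Fin 2) (pay : Prof n → Fin 2 → ℝ) : Prop :=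
  ∀ b : Prof n, (∀ i k, 0 ≤ b i k) → ∀ (i : Fin 2) (r : Fin n → ℝ), (∀ k, 0 ≤ r k) →
    pay (Function.update b i r) i - ∑ k with X (Function.update b i r) k = i, b i k
      ≤ pay b i - ∑ k with X b k = i, b i k

/-- there is a universally truthful mechanism for `n` jobs with ratio `c` -/
def HasUT (n : ℕ) (c : ℝ) : Prop :=
  ∃ (Ω : Type) (_ : MeasurableSpace Ω) (μ : Measure Ω) (_ : IsProbabilityMeasure μ)
    (X : Ω → Prof n → Fin n → Fin 2) (pay : Ω → Prof n → Fin 2 → ℝ),
    (∀ ω, DT (X ω) (pay ω)) ∧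
    (∀ b : Prof n, (∀ i k, 0 ≤ b i k) → Measurable fun ω => X ω b) ∧
    (∀ b : Prof n, (∀ i k, 0 ≤ b i k) → ∀ τ, ∫ ω, mks b (X ω b) ∂μ ≤ c * mks b τ)

theorem integral_cells {Ω R : Type} [MeasurableSpace Ω] [MeasurableSpace R]
    [MeasurableSingletonClass R] [Fintype R] {μ : Measure Ω} [IsProbabilityMeasure μ]
    {g : Ω → R} (hg : Measurable g) (F : R → ℝ) :
    ∫ ω, F (g ω) ∂μ = ∑ r, μ.real (g ⁻¹' {r}) * F r := by
  have hF : Measurable F := measurable_of_finite F
  have : IsProbabilityMeasure (μ.map g) := Measure.isProbabilityMeasure_map hg.aemeasurable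
  rw [← integral_map hg.aemeasurable hF.aestronglyMeasurable, integral_fintype]
  · refine Finset.sum_congr rfl fun r _ => ?_
    rw [smul_eq_mul, map_measureReal_apply hg (measurableSet_singleton r)]
  · exact Integrable.of_finite

theorem finite_family {n : ℕ} {c : ℝ} (h : HasUT n c) (B : Finset (Prof n))
    (hB : ∀ b ∈ B, ∀ i k, 0 ≤ b i k) :
    ∃ (R : Type) (_ : Fintype R) (w : R → ℝ) (X : R → Prof n → Fin n → Fin 2)
      (pay : R → Prof n → Fin 2 → ℝ), (∀ r, 0 ≤ w r) ∧ ∑ r, w r = 1 ∧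
      (∀ r, DT (X r) (pay r)) ∧
      ∀ b ∈ B, ∀ τ, ∑ r, w r * mks b (X r b) ≤ c * mks b τ := by
  classical
  obtain ⟨Ω, _, μ, _, X, pay, hDT, hmeas, hcost⟩ := h
  let g : Ω → (B → Fin n → Fin 2) := fun ω b => X ω b.1
  have hg : Measurable g := measurable_pi_lambda _ fun b => hmeas b.1 (hB b.1 b.2)
  have hΩ : Nonempty Ω := by
    by_contra hne
    rw [not_nonempty_iff] at hne
    have h1 : μ Set.univ = 1 := measure_univ
    rw [Set.univ_eq_empty_iff.2 hne, measure_empty] at h1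
    exact zero_ne_one h1
  let rep : (B → Fin n → Fin 2) → Ω := fun r =>
    if h : ∃ ω, g ω = r then h.choose else hΩ.some
  have hrep : ∀ r, μ.real (g ⁻¹' {r}) ≠ 0 → g (rep r) = r := by
    intro r hr
    have hex : ∃ ω, g ω = r := by
      by_contra hne
      push Not at hne
      apply hr
      have : g ⁻¹' {r} = ∅ := Set.eq_empty_of_forall_notMem fun ω hω => hne ω hω
      rw [this, measureReal_empty]
    simp only [rep, hex, dif_pos]
    exact hex.choose_spec
  refine ⟨B → Fin n → Fin 2, inferInstance, fun r => μ.real (g ⁻¹' {r}), fun r => X (rep r),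
    fun r => pay (rep r), fun r => measureReal_nonneg, ?_, fun r => hDT _, fun b hb τ => ?_⟩
  · have := integral_cells (μ := μ) hg (fun _ => (1 : ℝ))
    simp only [mul_one] at this
    rw [← this]
    simp
  · have h1 := integral_cells (μ := μ) hg (fun r => mks b (r ⟨b, hb⟩))
    have h2 := hcost b (hB b hb) τ
    change ∫ ω, mks b (X ω b) ∂μ = _ at h1
    rw [h1] at h2
    refine le_trans (le_of_eq (Finset.sum_congr rfl fun r _ => ?_)) h2
    change μ.real (g ⁻¹' {r}) * mks b (X (rep r) b) = μ.real (g ⁻¹' {r}) * mks b (r ⟨b, hb⟩)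
    by_cases hr : μ.real (g ⁻¹' {r}) = 0
    · rw [hr, zero_mul, zero_mul]
    · have := congrFun (hrep r hr) ⟨b, hb⟩
      change X (rep r) b = r ⟨b, hb⟩ at this
      rw [this]

theorem c_nonneg {c : ℝ} (h : HasUT 1 c) : 0 ≤ c := by
  obtain ⟨Ω, _, μ, _, X, pay, hDT, hmeas, hcost⟩ := h
  have h1 := hcost (fun _ _ => 1) (fun _ _ => zero_le_one) (fun _ => 0)
  have h2 : mks (n := 1) (fun _ _ => 1) (fun _ => 0) = 1 := by
    simp [mks]
  rw [h2, mul_one] at h1
  refine le_trans (integral_nonneg fun ω => ?_) h1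
  unfold mks
  exact le_max_of_le_left (Finset.sum_nonneg fun k _ => zero_le_one)

end

end Pool.Agent.Lib.MP_2c6a66_lc.UT
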