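import Pool.Agent.Lib.MP_2c6a66_lc.UT.Grid

/-! Along a sequence of systems the weighted interactions tend to zero in the weak sense. -/

namespace Pool.Agent.Lib.MP_2c6a66_lc.UT

open scoped NNReal Topology
open Finset Filter Pool.Agent.Lib.MP_2c6a66_lc.LB

noncomputable section

theorem est' {h Ga Gb Gc Gd qa qb qc qd N t1 t2 b X : ℝ} (hh : 0 ≤ h) (hN : 0 ≤ N)
    (h1 : 0 ≤ t1) (h2 : 0 ≤ t2) (hb : 0 ≤ b) (ga : 0 ≤ Ga) (gb : 0 ≤ Gb) (gc : 0 ≤ Gc)
    (gd : 0 ≤ Gd) (ha' : h * Ga ≤ qa) (hb' : h * Gb ≤ qb) (hc' : h * Gc ≤ qc)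
    (hd' : h * Gd ≤ qd)
    (hX : |h * X| ≤ (4 * h + h * (N + 1) * (t1 + t2)) * (Gc * Gd)
      + h * (Gd * (6 * Ga + 6 * Gc + b * (Ga * Gc)))
      + h * (Gc * (6 * Gb + 6 * Gd + b * (Gb * Gd)))) :
    |h ^ 2 * (h * X)| ≤ h * (4 + (N + 1) * t1 + (N + 1) * t2) * (qc * qd)
      + (h * (6 * (qd * qa) + 6 * (qd * qc)) + b * (qd * (qa * qc)))
      + (h * (6 * (qc * qb) + 6 * (qc * qd)) + b * (qc * (qb * qd))) := by
  rw [abs_mul, abs_of_nonneg (by positivity)]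
  have na : 0 ≤ h * Ga := mul_nonneg hh ga
  have nb : 0 ≤ h * Gb := mul_nonneg hh gb
  have nc : 0 ≤ h * Gc := mul_nonneg hh gc
  have nd : 0 ≤ h * Gd := mul_nonneg hh gd
  have ma : 0 ≤ qa := na.trans ha'
  have mb : 0 ≤ qb := nb.trans hb'
  have mc : 0 ≤ qc := nc.trans hc'
  have md : 0 ≤ qd := nd.trans hd'
  have e : h ^ 2 * ((4 * h + h * (N + 1) * (t1 + t2)) * (Gc * Gd)
      + h * (Gd * (6 * Ga + 6 * Gc + b * (Ga * Gc)))
      + h * (Gc * (6 * Gb + 6 * Gd + b * (Gb * Gd))))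
      = h * (4 + (N + 1) * t1 + (N + 1) * t2) * ((h * Gc) * (h * Gd))
      + (h * (6 * ((h * Gd) * (h * Ga)) + 6 * ((h * Gd) * (h * Gc)))
        + b * ((h * Gd) * ((h * Ga) * (h * Gc))))
      + (h * (6 * ((h * Gc) * (h * Gb)) + 6 * ((h * Gc) * (h * Gd)))
        + b * ((h * Gc) * ((h * Gb) * (h * Gd)))) := by ring
  refine (mul_le_mul_of_nonneg_left hX (by positivity)).trans ?_
  rw [e]
  have cd : (h * Gc) * (h * Gd) ≤ qc * qd := mul_le_mul hc' hd' nd mc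
  have da : (h * Gd) * (h * Ga) ≤ qd * qa := mul_le_mul hd' ha' na md
  have dc : (h * Gd) * (h * Gc) ≤ qd * qc := mul_le_mul hd' hc' nc md
  have cb : (h * Gc) * (h * Gb) ≤ qc * qb := mul_le_mul hc' hb' nb mc
  have ac : (h * Ga) * (h * Gc) ≤ qa * qc := mul_le_mul ha' hc' nc ma
  have bd : (h * Gb) * (h * Gd) ≤ qb * qd := mul_le_mul hb' hd' nd mb
  have dac : (h * Gd) * ((h * Ga) * (h * Gc)) ≤ qd * (qa * qc) :=
    mul_le_mul hd' ac (mul_nonneg na nc) md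
  have cbd : (h * Gc) * ((h * Gb) * (h * Gd)) ≤ qc * (qb * qd) :=
    mul_le_mul hc' bd (mul_nonneg nb nd) mc
  have f1 := mul_le_mul_of_nonneg_left cd
    (show 0 ≤ h * (4 + (N + 1) * t1 + (N + 1) * t2) by positivity)
  have f2 := mul_le_mul_of_nonneg_left (show 6 * ((h * Gd) * (h * Ga))
    + 6 * ((h * Gd) * (h * Gc)) ≤ 6 * (qd * qa) + 6 * (qd * qc) by linarith) hh
  have f3 := mul_le_mul_of_nonneg_left dac hb
  have f4 := mul_le_mul_of_nonneg_left (show 6 * ((h * Gc) * (h * Gb))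
    + 6 * ((h * Gc) * (h * Gd)) ≤ 6 * (qc * qb) + 6 * (qc * qd) by linarith) hh
  have f5 := mul_le_mul_of_nonneg_left cbd hb
  linarith

theorem tendsto_est {ωa ωb ωc ωd ω1 ω2 : ℝ} (ha : 0 < ωa) (hb : 0 < ωb) (hc : 0 < ωc)
    (hd : 0 < ωd) (h1 : 0 < ω1) (h2 : 0 < ω2) {b : ℕ → ℝ} (hb0 : Tendsto b atTop (𝓝 0)) :
    Tendsto (fun n => (hh n : ℝ) * (4 + ((NN n : ℝ) + 1) * rr ω1 n ^ NN n
        + ((NN n : ℝ) + 1) * rr ω2 n ^ NN n) * (hh n / (1 - rr ωc n) * (hh n / (1 - rr ωd n)))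
      + ((hh n : ℝ) * (6 * (hh n / (1 - rr ωd n) * (hh n / (1 - rr ωa n)))
        + 6 * (hh n / (1 - rr ωd n) * (hh n / (1 - rr ωc n))))
        + b n * (hh n / (1 - rr ωd n) * (hh n / (1 - rr ωa n) * (hh n / (1 - rr ωc n)))))
      + ((hh n : ℝ) * (6 * (hh n / (1 - rr ωc n) * (hh n / (1 - rr ωb n)))
        + 6 * (hh n / (1 - rr ωc n) * (hh n / (1 - rr ωd n))))
        + b n * (hh n / (1 - rr ωc n) * (hh n / (1 - rr ωb n) * (hh n / (1 - rr ωd n))))))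
      atTop (𝓝 0) := by
  have ta := tendsto_slope_inv ha
  have tb := tendsto_slope_inv hb
  have tc := tendsto_slope_inv hc
  have td := tendsto_slope_inv hd
  have t0 := tendsto_hh
  have p1 := tendsto_bound h1 h2 hc hd
  have p2 := (t0.mul (((td.mul ta).const_mul 6).add ((td.mul tc).const_mul 6))).add
    (hb0.mul (td.mul (ta.mul tc)))
  have p3 := (t0.mul (((tc.mul tb).const_mul 6).add ((tc.mul td).const_mul 6))).add
    (hb0.mul (tc.mul (tb.mul td)))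
  have := (p1.add p2).add p3
  simpa using this

/-- the index of a step -/
def idx (h : ℝ≥0) : ℕ := ⌊1 / (h : ℝ)⌋₊ - 1

theorem idx_hh (m : ℕ) : idx (hh m) = m := by
  unfold idx
  rw [hh_coe, one_div_one_div]
  have : ((m : ℝ) + 1) = ((m + 1 : ℕ) : ℝ) := by push_cast; ring
  rw [this, Nat.floor_natCast]
  rfl

variable {c : ℝ} {D : ℕ → Set T} {e : ℕ → ℝ} {η : ℕ → ℝ} {bm : ℕ → ℝ≥0}

/-- admissible sequences of systems -/
structure Good (S : ∀ m, Sys c (D m) (e m) (η m) (bm m)) : Prop where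
  grid : ∀ m, HasGrid (D m) (hh m) (NN m)
  he : ∀ m, 0 ≤ e m
  hb : ∀ m, bm m < hh m
  lim : Tendsto (fun m => bN (e m) (hh m) (NN m)) atTop (𝓝 0)

theorem Good.flip {S : ∀ m, Sys c (D m) (e m) (η m) (bm m)} (hS : Good S) :
    Good (fun m => (S m).flip) := ⟨hS.grid, hS.he, hS.hb, hS.lim⟩

theorem bN_nonneg {e : ℝ} (he : 0 ≤ e) (h : ℝ≥0) (N : ℕ) : 0 ≤ bN e h N := by
  unfold bN
  have := h.2
  have h2 : 0 ≤ (h : ℝ) := h.coe_nonneg
  positivity

variable (S : ∀ m, Sys c (D m) (e m) (η m) (bm m)) (φ : ∀ m, (S m).Z → ℝ)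

/-- first interaction, as a function of the step -/
def FF1 (h : ℝ≥0) (i j k l : ℕ) : ℝ := F1 (S (idx h)) (φ (idx h)) (hh (idx h)) i j k l

/-- second interaction, as a function of the step -/
def FF2 (h : ℝ≥0) (i j k l : ℕ) : ℝ := F2 (S (idx h)) (φ (idx h)) (hh (idx h)) i j k l

theorem FF1_hh (n : ℕ) : FF1 S φ (hh n) = F1 (S n) (φ n) (hh n) := by
  funext i j k l
  unfold FF1
  rw [idx_hh]

theorem FF2_hh (n : ℕ) : FF2 S φ (hh n) = F2 (S n) (φ n) (hh n) := by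
  funext i j k l
  unfold FF2
  rw [idx_hh]

variable {S φ}

theorem tendsto_Q' (hS : Good S) (h0 : ∀ m z, 0 ≤ φ m z) (h1 : ∀ m z, φ m z ≤ 1)
    {ω1 ω2 ω3 ω4 : ℝ} (p1 : 0 < ω1) (p2 : 0 < ω2) (p3 : 0 < ω3)
    (p4 : 0 < ω4) (hres : ω2 * ω3 - ω1 * ω4 ≠ 0) :
    Tendsto (QQ ω1 ω2 ω3 ω4 (FF1 S φ)) atTop (𝓝 0)
      ∧ Tendsto (QQ ω1 ω2 ω3 ω4 (FF2 S φ)) atTop (𝓝 0) := by
  set Q1 := QQ ω1 ω2 ω3 ω4 (FF1 S φ) with hQ1
  set Q2 := QQ ω1 ω2 ω3 ω4 (FF2 S φ) with hQ2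
  let A : ℕ → ℝ := fun n => (1 - rr ω2 n) / hh n * rr ω1 n
  let B : ℕ → ℝ := fun n => (1 - rr ω1 n) / hh n * rr ω2 n
  let C : ℕ → ℝ := fun n => (1 - rr ω4 n) / hh n * rr ω3 n
  let E : ℕ → ℝ := fun n => (1 - rr ω3 n) / hh n * rr ω4 n
  have hA : Tendsto A atTop (𝓝 ω2) := by
    have := (tendsto_slope ω2).mul (tendsto_rr ω1); rwa [mul_one] at this
  have hB : Tendsto B atTop (𝓝 ω1) := by
    have := (tendsto_slope ω1).mul (tendsto_rr ω2); rwa [mul_one] at this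
  have hC : Tendsto C atTop (𝓝 ω4) := by
    have := (tendsto_slope ω4).mul (tendsto_rr ω3); rwa [mul_one] at this
  have hE : Tendsto E atTop (𝓝 ω3) := by
    have := (tendsto_slope ω3).mul (tendsto_rr ω4); rwa [mul_one] at this
  have hAB : Tendsto (fun n => A n * Q1 n - B n * Q2 n) atTop (𝓝 0) := by
    refine squeeze_zero_norm (fun n => ?_) (tendsto_est p1 p2 p3 p4 p1 p2 hS.lim)
    have hn := hh_pos n
    have e : A n * Q1 n - B n * Q2 n = (hh n : ℝ) ^ 2 * ((hh n : ℝ) *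
        ((1 - rr ω2 n) * rr ω1 n * S4 (rr ω1 n) (rr ω2 n) (rr ω3 n) (rr ω4 n) (NN n)
          (F1 (S n) (φ n) (hh n))
        - (1 - rr ω1 n) * rr ω2 n
          * S4 (rr ω1 n) (rr ω2 n) (rr ω3 n) (rr ω4 n) (NN n) (F2 (S n) (φ n) (hh n)))) := by
      simp only [A, B, hQ1, hQ2, QQ, FF1_hh, FF2_hh]
      field_simp
    rw [Real.norm_eq_abs, e]
    exact est' hn.le (Nat.cast_nonneg _) (pow_nonneg (rr_pos ω1 n).le _)
      (pow_nonneg (rr_pos ω2 n).le _) (bN_nonneg (hS.he n) _ _)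
      (geom_nonneg (rr_pos ω1 n).le _) (geom_nonneg (rr_pos ω2 n).le _)
      (geom_nonneg (rr_pos ω3 n).le _) (geom_nonneg (rr_pos ω4 n).le _)
      (hG_le p1 n _) (hG_le p2 n _) (hG_le p3 n _) (hG_le p4 n _)
      (gridA' (S n) (hh n) (hS.he n) (hS.hb n) (h0 n) (h1 n) (rr_pos ω1 n).le (rr_le p1.le n)
        (rr_pos ω2 n).le (rr_le p2.le n) (rr_pos ω3 n).le (rr_le p3.le n) (rr_pos ω4 n).le
        (rr_le p4.le n) (NN n) (hS.grid n))
  have hCE : Tendsto (fun n => C n * Q1 n - E n * Q2 n) atTop (𝓝 0) := by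
    refine squeeze_zero_norm (fun n => ?_) (tendsto_est p3 p4 p1 p2 p3 p4 hS.lim)
    have hn := hh_pos n
    have e : C n * Q1 n - E n * Q2 n = (hh n : ℝ) ^ 2 * ((hh n : ℝ) *
        ((1 - rr ω4 n) * rr ω3 n * S4 (rr ω1 n) (rr ω2 n) (rr ω3 n) (rr ω4 n) (NN n)
          (F1 (S n) (φ n) (hh n))
        - (1 - rr ω3 n) * rr ω4 n
          * S4 (rr ω1 n) (rr ω2 n) (rr ω3 n) (rr ω4 n) (NN n) (F2 (S n) (φ n) (hh n)))) := by
      simp only [C, E, hQ1, hQ2, QQ, FF1_hh, FF2_hh]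
      field_simp
    rw [Real.norm_eq_abs, e]
    refine est' hn.le (Nat.cast_nonneg (NN n)) (pow_nonneg (rr_pos ω3 n).le (NN n))
      (pow_nonneg (rr_pos ω4 n).le (NN n)) (bN_nonneg (hS.he n) (hh n) (NN n))
      (geom_nonneg (rr_pos ω3 n).le (NN n)) (geom_nonneg (rr_pos ω4 n).le (NN n))
      (geom_nonneg (rr_pos ω1 n).le (NN n)) (geom_nonneg (rr_pos ω2 n).le (NN n))
      (hG_le p3 n (NN n)) (hG_le p4 n (NN n)) (hG_le p1 n (NN n)) (hG_le p2 n (NN n)) ?_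
    refine (gridB' (S n) (hh n) (hS.he n) (hS.hb n) (h0 n) (h1 n) (rr_pos ω1 n).le
        (rr_le p1.le n) (rr_pos ω2 n).le (rr_le p2.le n) (rr_pos ω3 n).le (rr_le p3.le n)
        (rr_pos ω4 n).le (rr_le p4.le n) (NN n) (hS.grid n)).trans (le_of_eq ?_)
    ring
  have hdet : Tendsto (fun n => A n * E n - B n * C n) atTop (𝓝 (ω2 * ω3 - ω1 * ω4)) :=
    (hA.mul hE).sub (hB.mul hC)
  have hinv := hdet.inv₀ hres
  have hne : ∀ᶠ n in atTop, A n * E n - B n * C n ≠ 0 := hdet.eventually_ne hres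
  constructor
  · have h5 := ((hE.mul hAB).sub (hB.mul hCE)).mul hinv
    simp only [mul_zero, sub_zero, zero_mul] at h5
    refine h5.congr' ?_
    filter_upwards [hne] with n hn
    have : E n * (A n * Q1 n - B n * Q2 n) - B n * (C n * Q1 n - E n * Q2 n)
        = Q1 n * (A n * E n - B n * C n) := by ring
    rw [this, mul_inv_cancel_right₀ hn]
  · have h5 := ((hC.mul hAB).sub (hA.mul hCE)).mul hinv
    simp only [mul_zero, sub_zero, zero_mul] at h5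
    refine h5.congr' ?_
    filter_upwards [hne] with n hn
    have : C n * (A n * Q1 n - B n * Q2 n) - A n * (C n * Q1 n - E n * Q2 n)
        = Q2 n * (A n * E n - B n * C n) := by ring
    rw [this, mul_inv_cancel_right₀ hn]

theorem tendsto_FF1 (hS : Good S) (h0 : ∀ m z, 0 ≤ φ m z) (h1 : ∀ m z, φ m z ≤ 1)
    (ψ : C(Fin 4 → unitInterval, ℝ)) :
    Tendsto (fun n => LL (FF1 S φ) n ψ) atTop (𝓝 0) := by
  refine tendsto_LL (fun h i j k l => UT.abs_F1 _ _ (h0 _) (h1 _) _ _ _ _) (fun m => ?_) ψ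
  simp only [LL_mon]
  exact (tendsto_Q' hS h0 h1 (mul_pos (om_pos _) (by positivity))
    (mul_pos (om_pos _) (by positivity)) (mul_pos (om_pos _) (by positivity))
    (mul_pos (om_pos _) (by positivity)) (no_resonance m)).1

theorem tendsto_FF2 (hS : Good S) (h0 : ∀ m z, 0 ≤ φ m z) (h1 : ∀ m z, φ m z ≤ 1)
    (ψ : C(Fin 4 → unitInterval, ℝ)) :
    Tendsto (fun n => LL (FF2 S φ) n ψ) atTop (𝓝 0) := by
  refine tendsto_LL (fun h i j k l => UT.abs_F2 _ _ (h0 _) (h1 _) _ _ _ _) (fun m => ?_) ψ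
  simp only [LL_mon]
  exact (tendsto_Q' hS h0 h1 (mul_pos (om_pos _) (by positivity))
    (mul_pos (om_pos _) (by positivity)) (mul_pos (om_pos _) (by positivity))
    (mul_pos (om_pos _) (by positivity)) (no_resonance m)).2

end

end Pool.Agent.Lib.MP_2c6a66_lc.UT

/-! Localisation: the cost inequality for the kernel of a sequence of systems. -/

namespace Pool.Agent.Lib.MP_2c6a66_lc.UT

open scoped NNReal Topology
open Finset Filter Pool.Agent.Lib.MP_2c6a66_lc.LB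

noncomputable section

/-- the cost of the two jobs `(1, x)` and `(y, 1)`, on indicators -/
def Psi (x y a b : ℝ) : ℝ := x + 1 - x * a - b + (1 + y) * (a * b)

theorem psi_cost {x y P Q : ℝ} (hx : 0 ≤ x) (hy : 0 ≤ y) (hP : P = 0 ∨ P = 1)
    (hQ : Q = 0 ∨ Q = 1) :
    Psi x y P Q ≤ max (P + y * Q) (x * (1 - P) + (1 - Q)) := by
  unfold Psi
  rcases hP with rfl | rfl <;> rcases hQ with rfl | rfl
  · exact le_max_of_le_right (by linarith)
  · exact le_max_of_le_right (by linarith)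
  · exact le_max_of_le_left (by linarith)
  · exact le_max_of_le_left (by linarith)

theorem psi_lip {x y P Q g G : ℝ} (hx : 0 ≤ x) (hy : 0 ≤ y) (hP : P = 0 ∨ P = 1)
    (hQ : Q = 0 ∨ Q = 1) (hg : g = 0 ∨ g = 1) (hG : G = 0 ∨ G = 1) :
    Psi x y g G ≤ Psi x y P Q + (x + 2 * y + 2) * (|P - g| + |Q - G|) := by
  unfold Psi
  rcases hP with rfl | rfl <;> rcases hQ with rfl | rfl <;> rcases hg with rfl | rfl <;>
    rcases hG with rfl | rfl <;> norm_num <;> linarith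

theorem path_abs {P g' gt g : ℝ} (hP : P = 0 ∨ P = 1) (h' : g' = 0 ∨ g' = 1)
    (ht : gt = 0 ∨ gt = 1) (hg : g = 0 ∨ g = 1) (h1 : g' ≤ gt) (h2 : gt ≤ g) :
    |P - g| ≤ (1 - g) * (P - gt) - g' * (P - gt) + (g - g') := by
  rcases hP with rfl | rfl <;> rcases h' with rfl | rfl <;> rcases ht with rfl | rfl <;>
    rcases hg with rfl | rfl <;> norm_num at *

variable {c : ℝ} {D : Set T} {e η : ℝ} {bm : ℝ≥0}

namespace Sys

theorem Gb_nonneg (S : Sys c D e η bm) (z : S.Z) (s : T) : 0 ≤ S.Gb z s := S.P2_nonneg z _ _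

theorem Gb_le (S : Sys c D e η bm) (z : S.Z) (s : T) : S.Gb z s ≤ 1 := S.P2_le z _ _

theorem Gb_01 (S : Sys c D e η bm) (z : S.Z) (s : T) : S.Gb z s = 0 ∨ S.Gb z s = 1 :=
  S.P2_01 z _ _

theorem Gb_anti (S : Sys c D e η bm) (z : S.Z) {s1 s1' : ℝ≥0} (h : s1 ≤ s1') (s2 : ℝ≥0) :
    S.Gb z (s1', s2) ≤ S.Gb z (s1, s2) := S.flip.Ga_anti z h s2

theorem Gb_mono (S : Sys c D e η bm) (z : S.Z) (s1 : ℝ≥0) {s2 s2' : ℝ≥0} (h : s2 ≤ s2') :
    S.Gb z (s1, s2) ≤ S.Gb z (s1, s2') := S.flip.Ga_mono z s1 h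

/-- mean of the kernel -/
def m (S : Sys c D e η bm) (s : T) : ℝ := ∑ z, S.wt z * S.K z s

/-- mean cost, in terms of the kernel -/
def EK (S : Sys c D e η bm) (x y : ℝ≥0) : ℝ :=
  ∑ z, S.wt z * Psi x y (S.K z (1, x)) (S.K z (y, 1))

/-- mean cost, in terms of the jobs alone -/
def EG (S : Sys c D e η bm) (x y : ℝ≥0) : ℝ :=
  ∑ z, S.wt z * Psi x y (S.Ga z (1, x)) (S.Gb z (y, 1))

theorem m_Ga (S : Sys c D e η bm) (s : T) : ∑ z, S.wt z * S.Ga z s = S.m s := S.kE1 s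

theorem m_Gb (S : Sys c D e η bm) (s : T) : ∑ z, S.wt z * S.Gb z s = S.m s := S.kE2 s

theorem sum_psi (S : Sys c D e η bm) (x y : ℝ) (a b : S.Z → ℝ) :
    ∑ z, S.wt z * Psi x y (a z) (b z)
      = (x + 1) - x * (∑ z, S.wt z * a z) - (∑ z, S.wt z * b z)
        + (1 + y) * ∑ z, S.wt z * (a z * b z) := by
  have e : ∀ z, S.wt z * Psi x y (a z) (b z)
      = (x + 1) * S.wt z - x * (S.wt z * a z) - S.wt z * b z
        + (1 + y) * (S.wt z * (a z * b z)) := fun z => by unfold Psi; ring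
  simp only [e, Finset.sum_add_distrib, Finset.sum_sub_distrib, ← Finset.mul_sum, S.wt_sum]
  ring

theorem EK_le (S : Sys c D e η bm) (x y : ℝ≥0) : S.EK x y ≤ S.EG x y + (1 + y) * η := by
  have h := S.kE3 (1, x) (y, 1)
  have h0 : (0 : ℝ) ≤ 1 + y := by positivity
  unfold EK EG
  rw [S.sum_psi, S.sum_psi, S.m_Ga, S.m_Gb]
  have h' := (abs_le.1 h).1
  have h2 := mul_le_mul_of_nonneg_left h' h0
  have e1 : ∑ z, S.wt z * (S.Ga z (1, x) * S.Gb z (y, 1))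
      = ∑ z, S.wt z * (S.P1 z (1, x) (nul (S.b1 z) (S.b2 z) (S.eb z))
      * S.P2 z (nul (S.b1 z) (S.b2 z) (S.ea z)) (y, 1)) := rfl
  rw [e1]
  change (x : ℝ) + 1 - x * S.m (1, x) - S.m (y, 1) + _ ≤ _
  linarith

theorem grid_ineq (S : Sys c D e η bm) (hc : 0 ≤ c) {x y q h : ℝ≥0} (hq : 1 < q)
    {i j k l : ℕ} (i1 : 1 < (i : ℝ) * h) (i2 : (i : ℝ) * h < q) (j1 : (y : ℝ) < j * h)
    (j2 : (j : ℝ) * h < q * y) (k1 : (x : ℝ) / q < k * h) (k2 : (k : ℝ) * h < x)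
    (l1 : 1 / (q : ℝ) < l * h) (l2 : (l : ℝ) * h < 1)
    (hs : gj h i k ∈ D) (ht : gj h j l ∈ D) :
    S.EG x y ≤ c * q ^ 2 + (x + 2 * y + 2) * ((S.m (1, x) - S.m (q, x / q))
        + (S.m (y, 1) - S.m (q * y, 1 / q)))
      + (x + 2 * y + 2) * ((F1 S (fun z => 1 - S.Ga z (1, x)) h i j k l
          - F1 S (fun z => S.Ga z (q, x / q)) h i j k l)
        + (F2 S (fun z => 1 - S.Gb z (y, 1)) h i j k l
          - F2 S (fun z => S.Gb z (q * y, 1 / q)) h i j k l)) := by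
  have hqr : (1 : ℝ) < q := by exact_mod_cast hq
  have hq0 : (0 : ℝ) < q := by linarith
  have x0 : (0 : ℝ) ≤ x := x.coe_nonneg
  have y0 : (0 : ℝ) ≤ y := y.coe_nonneg
  set s := gj h i k with hs'
  set t := gj h j l with ht'
  have sa : ((s.1 : ℝ≥0) : ℝ) = (i : ℝ) * h := by simp [hs', gj]
  have sb : ((s.2 : ℝ≥0) : ℝ) = (k : ℝ) * h := by simp [hs', gj]
  have ta : ((t.1 : ℝ≥0) : ℝ) = (j : ℝ) * h := by simp [ht', gj]
  have tb : ((t.2 : ℝ≥0) : ℝ) = (l : ℝ) * h := by simp [ht', gj]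
  have a1 : 1 ≤ s.1 := by rw [← NNReal.coe_le_coe, sa]; exact i1.le
  have a2 : s.1 ≤ q := by rw [← NNReal.coe_le_coe, sa]; exact i2.le
  have a3 : x / q ≤ s.2 := by rw [← NNReal.coe_le_coe, sb]; push_cast; exact k1.le
  have a4 : s.2 ≤ x := by rw [← NNReal.coe_le_coe, sb]; exact k2.le
  have c1 : y ≤ t.1 := by rw [← NNReal.coe_le_coe, ta]; exact j1.le
  have c2 : t.1 ≤ q * y := by rw [← NNReal.coe_le_coe, ta]; push_cast; exact j2.le
  have c3 : 1 / q ≤ t.2 := by rw [← NNReal.coe_le_coe, tb]; push_cast; exact l1.le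
  have c4 : t.2 ≤ 1 := by rw [← NNReal.coe_le_coe, tb]; exact l2.le
  have pathwise : ∀ z, Psi x y (S.Ga z (1, x)) (S.Gb z (y, 1))
      ≤ q * max (s.1 * S.P1 z s t + t.1 * S.P2 z s t)
          (s.2 * (1 - S.P1 z s t) + t.2 * (1 - S.P2 z s t))
        + (x + 2 * y + 2) * (((1 - S.Ga z (1, x)) * (S.P1 z s t - S.Ga z s)
          - S.Ga z (q, x / q) * (S.P1 z s t - S.Ga z s) + (S.Ga z (1, x) - S.Ga z (q, x / q)))
        + ((1 - S.Gb z (y, 1)) * (S.P2 z s t - S.Gb z t)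
          - S.Gb z (q * y, 1 / q) * (S.P2 z s t - S.Gb z t)
          + (S.Gb z (y, 1) - S.Gb z (q * y, 1 / q)))) := by
    intro z
    have g1 : S.Ga z (q, x / q) ≤ S.Ga z s :=
      (S.Ga_mono z q a3).trans (S.Ga_anti z a2 s.2)
    have g2 : S.Ga z s ≤ S.Ga z (1, x) :=
      (S.Ga_mono z s.1 a4).trans (S.Ga_anti z a1 x)
    have g3 : S.Gb z (q * y, 1 / q) ≤ S.Gb z t :=
      (S.Gb_mono z (q * y) c3).trans (S.Gb_anti z c2 t.2)
    have g4 : S.Gb z t ≤ S.Gb z (y, 1) :=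
      (S.Gb_mono z t.1 c4).trans (S.Gb_anti z c1 1)
    have k1' := path_abs (S.P1_01 z s t) (S.Ga_01 z (q, x / q)) (S.Ga_01 z s)
      (S.Ga_01 z (1, x)) g1 g2
    have k2' := path_abs (S.P2_01 z s t) (S.Gb_01 z (q * y, 1 / q)) (S.Gb_01 z t)
      (S.Gb_01 z (y, 1)) g3 g4
    have k3 := psi_lip x0 y0 (S.P1_01 z s t) (S.P2_01 z s t) (S.Ga_01 z (1, x))
      (S.Gb_01 z (y, 1))
    have k4 := psi_cost x0 y0 (S.P1_01 z s t) (S.P2_01 z s t)
    have p1 := S.P1_nonneg z s t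
    have p2 := S.P1_le z s t
    have p3 := S.P2_nonneg z s t
    have p4 := S.P2_le z s t
    have k5 : max (S.P1 z s t + y * S.P2 z s t) (x * (1 - S.P1 z s t) + (1 - S.P2 z s t))
        ≤ q * max (s.1 * S.P1 z s t + t.1 * S.P2 z s t)
          (s.2 * (1 - S.P1 z s t) + t.2 * (1 - S.P2 z s t)) := by
      rw [sa, sb, ta, tb]
      refine max_le ?_ ?_
      · have h1 : S.P1 z s t + y * S.P2 z s t
            ≤ (i : ℝ) * h * S.P1 z s t + (j : ℝ) * h * S.P2 z s t := by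
          have := mul_le_mul_of_nonneg_right i1.le p1
          have := mul_le_mul_of_nonneg_right j1.le p3
          linarith
        have h2 : 0 ≤ (i : ℝ) * h * S.P1 z s t + (j : ℝ) * h * S.P2 z s t := by positivity
        have h3 := mul_le_mul_of_nonneg_right hqr.le h2
        have h4 := mul_le_mul_of_nonneg_left (le_max_left
          ((i : ℝ) * h * S.P1 z s t + (j : ℝ) * h * S.P2 z s t)
          ((k : ℝ) * h * (1 - S.P1 z s t) + (l : ℝ) * h * (1 - S.P2 z s t))) hq0.le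
        linarith
      · have h1 : x * (1 - S.P1 z s t) + (1 - S.P2 z s t)
            ≤ q * ((k : ℝ) * h * (1 - S.P1 z s t) + (l : ℝ) * h * (1 - S.P2 z s t)) := by
          have e1 : (x : ℝ) ≤ q * (k * h) := by
            rw [div_lt_iff₀ hq0] at k1; linarith
          have e2 : (1 : ℝ) ≤ q * (l * h) := by
            rw [div_lt_iff₀ hq0] at l1; linarith
          have := mul_le_mul_of_nonneg_right e1 (sub_nonneg.2 p2)
          have := mul_le_mul_of_nonneg_right e2 (sub_nonneg.2 p4)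
          linarith
        exact h1.trans (mul_le_mul_of_nonneg_left (le_max_right _ _) hq0.le)
    have hC : (0 : ℝ) ≤ x + 2 * y + 2 := by positivity
    have k6 := mul_le_mul_of_nonneg_left (add_le_add k1' k2') hC
    linarith
  have hsum := Finset.sum_le_sum fun z (_ : z ∈ Finset.univ) =>
    mul_le_mul_of_nonneg_left (pathwise z) (S.wt_nonneg z)
  have hcost := S.cost1 s hs t ht
  have hmax : max (s.1 : ℝ) t.2 ≤ q := by
    rw [sa, tb]; exact max_le i2.le (by linarith)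
  have hcost' : ∑ z, S.wt z * max (s.1 * S.P1 z s t + t.1 * S.P2 z s t)
      (s.2 * (1 - S.P1 z s t) + t.2 * (1 - S.P2 z s t)) ≤ c * q :=
    hcost.trans (mul_le_mul_of_nonneg_left hmax hc)
  have hcq := mul_le_mul_of_nonneg_left hcost' hq0.le
  have e : ∀ z, S.wt z * (q * max (s.1 * S.P1 z s t + t.1 * S.P2 z s t)
          (s.2 * (1 - S.P1 z s t) + t.2 * (1 - S.P2 z s t))
        + (x + 2 * y + 2) * (((1 - S.Ga z (1, x)) * (S.P1 z s t - S.Ga z s)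
          - S.Ga z (q, x / q) * (S.P1 z s t - S.Ga z s) + (S.Ga z (1, x) - S.Ga z (q, x / q)))
        + ((1 - S.Gb z (y, 1)) * (S.P2 z s t - S.Gb z t)
          - S.Gb z (q * y, 1 / q) * (S.P2 z s t - S.Gb z t)
          + (S.Gb z (y, 1) - S.Gb z (q * y, 1 / q)))))
      = q * (S.wt z * max (s.1 * S.P1 z s t + t.1 * S.P2 z s t)
          (s.2 * (1 - S.P1 z s t) + t.2 * (1 - S.P2 z s t)))
        + (x + 2 * y + 2) * (((S.wt z * ((1 - S.Ga z (1, x)) * (S.P1 z s t - S.Ga z s))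
          - S.wt z * (S.Ga z (q, x / q) * (S.P1 z s t - S.Ga z s)))
          + (S.wt z * S.Ga z (1, x) - S.wt z * S.Ga z (q, x / q)))
        + ((S.wt z * ((1 - S.Gb z (y, 1)) * (S.P2 z s t - S.Gb z t))
          - S.wt z * (S.Gb z (q * y, 1 / q) * (S.P2 z s t - S.Gb z t)))
          + (S.wt z * S.Gb z (y, 1) - S.wt z * S.Gb z (q * y, 1 / q)))) := fun z => by ring
  simp only [e, Finset.sum_add_distrib, Finset.sum_sub_distrib, ← Finset.mul_sum, S.m_Ga,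
    S.m_Gb] at hsum
  refine hsum.trans ?_
  unfold F1 F2 EE
  linarith

end Sys

theorem S4_mono' {r1 r2 r3 r4 : ℝ} (h1 : 0 ≤ r1) (h2 : 0 ≤ r2) (h3 : 0 ≤ r3) (h4 : 0 ≤ r4)
    (N : ℕ) {F G : ℕ → ℕ → ℕ → ℕ → ℝ}
    (h : ∀ i < N, ∀ j < N, ∀ k < N, ∀ l < N, F i j k l ≤ G i j k l) :
    S4 r1 r2 r3 r4 N F ≤ S4 r1 r2 r3 r4 N G :=
  Finset.sum_le_sum fun i hi => Finset.sum_le_sum fun j hj => Finset.sum_le_sum fun k hk =>
    Finset.sum_le_sum fun l hl => mul_le_mul_of_nonneg_left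
      (h i (Finset.mem_range.1 hi) j (Finset.mem_range.1 hj) k (Finset.mem_range.1 hk) l
        (Finset.mem_range.1 hl)) (by positivity)

theorem LL_nonneg_one (n : ℕ) (A B : Fin 4 → ℝ) :
    0 ≤ LL (fun _ _ _ _ _ => 1) n (test A B) := by
  unfold LL
  refine mul_nonneg (pow_nonneg (hh_pos n).le 4) ?_
  refine Finset.sum_nonneg fun i _ => Finset.sum_nonneg fun j _ => Finset.sum_nonneg fun k _ =>
    Finset.sum_nonneg fun l _ => ?_
  have p0 := (rr_pos (om 0) n).le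
  have p1 := (rr_pos (om 1) n).le
  have p2 := (rr_pos (om 2) n).le
  have p3 := (rr_pos (om 3) n).le
  change 0 ≤ rr (om 0) n ^ i * rr (om 1) n ^ j * (rr (om 2) n ^ k * rr (om 3) n ^ l)
    * (test A B (pt n i j k l) * 1)
  rw [test_pt]
  have t0 := tent_nonneg (A 0) (B 0) (rr (om 0) n ^ i)
  have t1 := tent_nonneg (A 1) (B 1) (rr (om 1) n ^ j)
  have t2 := tent_nonneg (A 2) (B 2) (rr (om 2) n ^ k)
  have t3 := tent_nonneg (A 3) (B 3) (rr (om 3) n ^ l)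
  positivity

theorem local_ineq {c : ℝ} {D : ℕ → Set T} {e η : ℕ → ℝ} {bm : ℕ → ℝ≥0}
    {S : ∀ m, Sys c (D m) (e m) (η m) (bm m)} (hS : Good S)
    (hη : Tendsto η atTop (𝓝 0)) (hc : 0 ≤ c) {x y q : ℝ≥0} (hx : 0 < x) (hy : 0 < y)
    (hq : 1 < q) {ε : ℝ} (hε : 0 < ε) :
    ∀ᶠ n in atTop, (S n).EK x y ≤ c * q ^ 2
      + (x + 2 * y + 2) * (((S n).m (1, x) - (S n).m (q, x / q))
        + ((S n).m (y, 1) - (S n).m (q * y, 1 / q))) + ε := by
  have hqr : (1 : ℝ) < q := by exact_mod_cast hq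
  have hq0 : (0 : ℝ) < q := by linarith
  have x0 : (0 : ℝ) < x := by exact_mod_cast hx
  have y0 : (0 : ℝ) < y := by exact_mod_cast hy
  let lo : Fin 4 → ℝ := ![1, (y : ℝ), (x : ℝ) / q, 1 / q]
  let hi : Fin 4 → ℝ := ![(q : ℝ), q * y, (x : ℝ), 1]
  have hlo : ∀ i, 0 < lo i := by
    intro i
    fin_cases i
    · exact one_pos
    · exact y0
    · change 0 < (x : ℝ) / q; positivity
    · change 0 < 1 / (q : ℝ); positivity
  have hlh : ∀ i, lo i < hi i := by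
    intro i
    fin_cases i
    · exact hqr
    · change (y : ℝ) < q * y; nlinarith
    · change (x : ℝ) / q < x; rw [div_lt_iff₀ hq0]; nlinarith
    · change 1 / (q : ℝ) < 1; rw [div_lt_iff₀ hq0]; linarith
  obtain ⟨lam, hlam, hev⟩ := mass hlo hlh
  set ψ := test (ee hi) (ee lo) with hψ
  have w01 : ∀ n z, 0 ≤ 1 - (S n).Ga z (1, x) := fun n z => by
    have := (S n).Ga_le z (1, x); linarith
  have w02 : ∀ n z, 1 - (S n).Ga z (1, x) ≤ 1 := fun n z => by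
    have := (S n).Ga_nonneg z (1, x); linarith
  have w03 : ∀ n z, 0 ≤ 1 - (S n).Gb z (y, 1) := fun n z => by
    have := (S n).Gb_le z (y, 1); linarith
  have w04 : ∀ n z, 1 - (S n).Gb z (y, 1) ≤ 1 := fun n z => by
    have := (S n).Gb_nonneg z (y, 1); linarith
  set A1 := FF1 S (fun n z => 1 - (S n).Ga z (1, x)) with hA1
  set A2 := FF1 S (fun n z => (S n).Ga z (q, x / q)) with hA2
  set B1 := FF2 S (fun n z => 1 - (S n).Gb z (y, 1)) with hB1
  set B2 := FF2 S (fun n z => (S n).Gb z (q * y, 1 / q)) with hB2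
  set C : ℝ := (x : ℝ) + 2 * y + 2 with hC
  have hlim : Tendsto (fun n => C * ((LL A1 n ψ - LL A2 n ψ) + (LL B1 n ψ - LL B2 n ψ)))
      atTop (𝓝 0) := by
    have h1 := tendsto_FF1 hS w01 w02 ψ
    have h2 := tendsto_FF1 hS (φ := fun n z => (S n).Ga z (q, x / q))
      (fun n z => (S n).Ga_nonneg z _) (fun n z => (S n).Ga_le z _) ψ
    have h3 := tendsto_FF2 hS w03 w04 ψ
    have h4 := tendsto_FF2 hS (φ := fun n z => (S n).Gb z (q * y, 1 / q))
      (fun n z => (S n).Gb_nonneg z _) (fun n z => (S n).Gb_le z _) ψ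
    have := ((h1.sub h2).add (h3.sub h4)).const_mul C
    simp only [sub_zero, add_zero, mul_zero] at this
    exact this
  have hlt : ∀ᶠ n in atTop, C * ((LL A1 n ψ - LL A2 n ψ) + (LL B1 n ψ - LL B2 n ψ))
      < lam * (ε / 2) := hlim.eventually_lt_const (by positivity)
  have hηlt : ∀ᶠ n in atTop, (1 + (y : ℝ)) * η n < ε / 2 := by
    have := hη.const_mul (1 + (y : ℝ))
    rw [mul_zero] at this
    exact this.eventually_lt_const (by positivity)
  filter_upwards [hev, hlt, hηlt] with n hn1 hn2 hn3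
  set En := (S n).EG x y - c * q ^ 2 - C * (((S n).m (1, x) - (S n).m (q, x / q))
        + ((S n).m (y, 1) - (S n).m (q * y, 1 / q))) with hEn
  have hpt : ∀ i < NN n, ∀ j < NN n, ∀ k < NN n, ∀ l < NN n,
      En * (ψ (pt n i j k l) * 1)
      ≤ C * (ψ (pt n i j k l) * A1 (hh n) i j k l) + (-C) * (ψ (pt n i j k l) * A2 (hh n) i j k l)
        + C * (ψ (pt n i j k l) * B1 (hh n) i j k l)
        + (-C) * (ψ (pt n i j k l) * B2 (hh n) i j k l) := by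
    intro i hiN j hjN k hkN l hlN
    rw [hψ, test_pt]
    set u0 := tent (ee hi 0) (ee lo 0) (rr (om 0) n ^ i) with hu0
    set u1 := tent (ee hi 1) (ee lo 1) (rr (om 1) n ^ j) with hu1
    set u2 := tent (ee hi 2) (ee lo 2) (rr (om 2) n ^ k) with hu2
    set u3 := tent (ee hi 3) (ee lo 3) (rr (om 3) n ^ l) with hu3
    by_cases hz : u0 * u1 * u2 * u3 = 0
    · rw [hz]; simp
    · have hz0 : u0 ≠ 0 := by rintro h; apply hz; rw [h]; ring
      have hz1 : u1 ≠ 0 := by rintro h; apply hz; rw [h]; ring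
      have hz2 : u2 ≠ 0 := by rintro h; apply hz; rw [h]; ring
      have hz3 : u3 ≠ 0 := by rintro h; apply hz; rw [h]; ring
      obtain ⟨i1, i2⟩ := tent_grid (om_pos 0) hz0
      obtain ⟨j1, j2⟩ := tent_grid (om_pos 1) hz1
      obtain ⟨k1, k2⟩ := tent_grid (om_pos 2) hz2
      obtain ⟨l1, l2⟩ := tent_grid (om_pos 3) hz3
      change 1 < (i : ℝ) * hh n at i1
      change (i : ℝ) * hh n < q at i2
      change (y : ℝ) < (j : ℝ) * hh n at j1
      change (j : ℝ) * hh n < q * y at j2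
      change (x : ℝ) / q < (k : ℝ) * hh n at k1
      change (k : ℝ) * hh n < x at k2
      change 1 / (q : ℝ) < (l : ℝ) * hh n at l1
      change (l : ℝ) * hh n < 1 at l2
      have hupos : 0 ≤ u0 * u1 * u2 * u3 :=
        mul_nonneg (mul_nonneg (mul_nonneg (tent_nonneg _ _ _) (tent_nonneg _ _ _))
          (tent_nonneg _ _ _)) (tent_nonneg _ _ _)
      have key := (S n).grid_ineq hc hq i1 i2 j1 j2 k1 k2 l1 l2
        (hS.grid n i k (by omega) (by omega)) (hS.grid n j l (by omega) (by omega))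
      have key' : En ≤ C * ((A1 (hh n) i j k l - A2 (hh n) i j k l)
          + (B1 (hh n) i j k l - B2 (hh n) i j k l)) := by
        rw [hA1, hA2, hB1, hB2, FF1_hh, FF1_hh, FF2_hh, FF2_hh, hEn]
        linarith
      have := mul_le_mul_of_nonneg_left key' hupos
      linarith
  have h1 := S4_mono' (rr_pos (om 0) n).le (rr_pos (om 1) n).le (rr_pos (om 2) n).le
    (rr_pos (om 3) n).le (NN n) hpt
  rw [S4_add, S4_add, S4_add, S4_smul, S4_smul, S4_smul, S4_smul, S4_smul] at h1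
  have h2 := mul_le_mul_of_nonneg_left h1 (pow_nonneg (hh_pos n).le 4)
  have h3 : En * LL (fun _ _ _ _ _ => 1) n ψ
      ≤ C * ((LL A1 n ψ - LL A2 n ψ) + (LL B1 n ψ - LL B2 n ψ)) := by
    unfold LL
    linarith
  have h4 : En ≤ ε / 2 := by
    by_contra hcon
    push Not at hcon
    have h5 : lam * (ε / 2) ≤ En * LL (fun _ _ _ _ _ => 1) n ψ := by
      calc lam * (ε / 2) ≤ LL (fun _ _ _ _ _ => 1) n ψ * (ε / 2) :=
            mul_le_mul_of_nonneg_right hn1 (by positivity)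
        _ ≤ LL (fun _ _ _ _ _ => 1) n ψ * En :=
            mul_le_mul_of_nonneg_left hcon.le (LL_nonneg_one n _ _)
        _ = _ := mul_comm _ _
    linarith
  have h6 := (S n).EK_le x y
  have h7 : (S n).EG x y = En + c * q ^ 2 + C * (((S n).m (1, x) - (S n).m (q, x / q))
        + ((S n).m (y, 1) - (S n).m (q * y, 1 / q))) := by rw [hEn]; ring
  linarith

end

end Pool.Agent.Lib.MP_2c6a66_lc.UT

/-! Averaging a system over scalings of the two machines. -/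

namespace Pool.Agent.Lib.MP_2c6a66_lc.UT

open scoped NNReal Topology
open Finset Filter Pool.Agent.Lib.MP_2c6a66_lc.LB

noncomputable section

/-- scaling of the two times -/
def sc (κ κ' : ℝ≥0) (s : T) : T := (κ * s.1, κ' * s.2)

theorem sc_nul {κ κ' : ℝ≥0} (h : κ ≠ 0) (h' : κ' ≠ 0) (b1 b2 : ℝ≥0) (e : Bool) :
    sc κ κ' (nul (b1 / κ') (b2 / κ) e) = nul b1 b2 e := by
  unfold sc nul
  cases e
  · simp only [Bool.false_eq_true, if_false, mul_zero]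
    rw [mul_div_cancel₀ _ h]
  · simp only [if_true, mul_zero]
    rw [mul_div_cancel₀ _ h']

theorem sc_sc (a b a' b' : ℝ≥0) (s : T) : sc a b (sc a' b' s) = sc (a * a') (b * b') s := by
  simp [sc, mul_assoc]

variable {c : ℝ} {D : Set T} {e η : ℝ} {bm : ℝ≥0}

namespace Sys

theorem sum_mix (S : Sys c D e η bm) (K : ℕ) (f : S.Z × Fin K → ℝ) :
    ∑ p, (S.wt p.1 / K) * f p = (1 / K) * ∑ j : Fin K, ∑ z, S.wt z * f (z, j) := by
  rw [Fintype.sum_prod_type_right, Finset.mul_sum]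
  refine Finset.sum_congr rfl fun j _ => ?_
  rw [Finset.mul_sum]
  exact Finset.sum_congr rfl fun z _ => by ring

theorem mix_le (S : Sys c D e η bm) {K : ℕ} (hK : 0 < K) (f : S.Z × Fin K → ℝ) {B : ℝ}
    (h : ∀ j : Fin K, ∑ z, S.wt z * f (z, j) ≤ B) : ∑ p, (S.wt p.1 / K) * f p ≤ B := by
  rw [S.sum_mix]
  have hK' : (0 : ℝ) < K := by exact_mod_cast hK
  calc (1 / (K : ℝ)) * ∑ j : Fin K, ∑ z, S.wt z * f (z, j) ≤ (1 / K) * ∑ j : Fin K, B :=
        mul_le_mul_of_nonneg_left (Finset.sum_le_sum fun j _ => h j) (by positivity)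
    _ = B := by
        rw [Finset.sum_const, Finset.card_univ, Fintype.card_fin, nsmul_eq_mul]
        field_simp

/-- average over scalings -/
def mix (S : Sys c D e η bm) {K : ℕ} (hK : 0 < K) {r r' : ℝ≥0} (hr : 0 < r) (hr' : 0 < r')
    {c' e' : ℝ} {D' : Set T} {bm' : ℝ≥0} (hc0 : 0 ≤ c) (he0 : 0 ≤ e)
    (hD : ∀ j < K, ∀ s ∈ D', sc (r ^ j) (r' ^ j) s ∈ D)
    (he : ∀ j < K, e * (r : ℝ) ^ j ≤ e') (he' : ∀ j < K, e * (r' : ℝ) ^ j ≤ e')
    (hb : ∀ j < K, bm ≤ r ^ j * bm') (hb' : ∀ j < K, bm ≤ r' ^ j * bm')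
    (hc : ∀ j < K, c * max ((r : ℝ) ^ j) ((r' : ℝ) ^ j) ≤ c' * min ((r : ℝ) ^ j) ((r' : ℝ) ^ j)) :
    Sys c' D' e' η bm' where
  Z := S.Z × Fin K
  wt := fun p => S.wt p.1 / K
  wt_nonneg := fun p => div_nonneg (S.wt_nonneg _) (Nat.cast_nonneg _)
  wt_sum := by
    have := S.sum_mix K (fun _ => 1)
    simp only [mul_one, S.wt_sum] at this
    rw [this, Finset.sum_const, Finset.card_univ, Fintype.card_fin, nsmul_eq_mul, mul_one]
    have hK' : (0 : ℝ) < K := by exact_mod_cast hK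
    field_simp
  P1 := fun p s t => S.P1 p.1 (sc (r ^ (p.2 : ℕ)) (r' ^ (p.2 : ℕ)) s)
    (sc (r ^ (p.2 : ℕ)) (r' ^ (p.2 : ℕ)) t)
  P2 := fun p s t => S.P2 p.1 (sc (r ^ (p.2 : ℕ)) (r' ^ (p.2 : ℕ)) s)
    (sc (r ^ (p.2 : ℕ)) (r' ^ (p.2 : ℕ)) t)
  P1_01 := fun p s t => S.P1_01 _ _ _
  P2_01 := fun p s t => S.P2_01 _ _ _
  V := fun p s t => S.V p.1 (sc (r ^ (p.2 : ℕ)) (r' ^ (p.2 : ℕ)) s)
    (sc (r ^ (p.2 : ℕ)) (r' ^ (p.2 : ℕ)) t) / r ^ (p.2 : ℕ)
  Y := fun p s t => S.Y p.1 (sc (r ^ (p.2 : ℕ)) (r' ^ (p.2 : ℕ)) s)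
    (sc (r ^ (p.2 : ℕ)) (r' ^ (p.2 : ℕ)) t) / r' ^ (p.2 : ℕ)
  hV := fun p s1 s1' s2 t1 t1' t2 => by
    have h := S.hV p.1 (r ^ (p.2 : ℕ) * s1) (r ^ (p.2 : ℕ) * s1') (r' ^ (p.2 : ℕ) * s2)
      (r ^ (p.2 : ℕ) * t1) (r ^ (p.2 : ℕ) * t1') (r' ^ (p.2 : ℕ) * t2)
    have hk : (0 : ℝ) < (r : ℝ) ^ (p.2 : ℕ) := pow_pos (by exact_mod_cast hr) _
    push_cast at h
    simp only [sc]
    rw [le_div_iff₀ hk, add_mul, add_mul, div_mul_cancel₀ _ hk.ne']
    refine le_trans (le_of_eq ?_) h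
    ring
  hY := fun p s1 s2 s2' t1 t2 t2' => by
    have h := S.hY p.1 (r ^ (p.2 : ℕ) * s1) (r' ^ (p.2 : ℕ) * s2) (r' ^ (p.2 : ℕ) * s2')
      (r ^ (p.2 : ℕ) * t1) (r' ^ (p.2 : ℕ) * t2) (r' ^ (p.2 : ℕ) * t2')
    have hk : (0 : ℝ) < (r' : ℝ) ^ (p.2 : ℕ) := pow_pos (by exact_mod_cast hr') _
    push_cast at h
    simp only [sc]
    rw [le_div_iff₀ hk, add_mul, add_mul, div_mul_cancel₀ _ hk.ne']
    refine le_trans (le_of_eq ?_) h
    ring
  b1 := fun p => S.b1 p.1 / r' ^ (p.2 : ℕ)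
  b2 := fun p => S.b2 p.1 / r ^ (p.2 : ℕ)
  hb1 := fun p => by
    have hk : (0 : ℝ≥0) < r' ^ (p.2 : ℕ) := pow_pos hr' _
    rw [div_le_iff₀ hk, mul_comm]
    exact (S.hb1 _).trans (hb' _ p.2.2)
  hb2 := fun p => by
    have hk : (0 : ℝ≥0) < r ^ (p.2 : ℕ) := pow_pos hr _
    rw [div_le_iff₀ hk, mul_comm]
    exact (S.hb2 _).trans (hb _ p.2.2)
  ea := fun p => S.ea p.1
  eb := fun p => S.eb p.1
  bad1 := fun s hs => by
    refine S.mix_le hK _ fun j => ?_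
    have h1 : sc (r ^ (j : ℕ)) (r' ^ (j : ℕ)) ((0 : ℝ≥0), (0 : ℝ≥0)) = (0, 0) := by simp [sc]
    have h2 : ∀ z, sc (r ^ (j : ℕ)) (r' ^ (j : ℕ)) ((0 : ℝ≥0), S.b1 z / r' ^ (j : ℕ))
        = (0, S.b1 z) := fun z => by
      have := sc_nul (pow_pos hr (j : ℕ)).ne' (pow_pos hr' (j : ℕ)).ne' (S.b1 z) (S.b2 z) true
      simpa [nul] using this
    simp only [h2]
    refine (S.bad1 _ (hD j j.2 s hs)).trans ?_
    simp only [sc]
    push_cast
    have a1 := mul_le_mul_of_nonneg_right (he j j.2) (NNReal.coe_nonneg s.1)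
    have a2 := mul_le_mul_of_nonneg_right (he' j j.2) (NNReal.coe_nonneg s.2)
    linarith
  bad2 := fun s hs => by
    refine S.mix_le hK _ fun j => ?_
    have h2 : ∀ z, sc (r ^ (j : ℕ)) (r' ^ (j : ℕ)) (S.b2 z / r ^ (j : ℕ), (0 : ℝ≥0))
        = (S.b2 z, 0) := fun z => by
      have := sc_nul (pow_pos hr (j : ℕ)).ne' (pow_pos hr' (j : ℕ)).ne' (S.b1 z) (S.b2 z) false
      simpa [nul] using this
    simp only [h2]
    refine (S.bad2 _ (hD j j.2 s hs)).trans ?_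
    simp only [sc]
    push_cast
    have a1 := mul_le_mul_of_nonneg_right (he j j.2) (NNReal.coe_nonneg s.1)
    have a2 := mul_le_mul_of_nonneg_right (he' j j.2) (NNReal.coe_nonneg s.2)
    linarith
  bad3 := fun s hs => by
    refine S.mix_le hK _ fun j => ?_
    have h2 : ∀ z, sc (r ^ (j : ℕ)) (r' ^ (j : ℕ)) ((0 : ℝ≥0), S.b1 z / r' ^ (j : ℕ))
        = (0, S.b1 z) := fun z => by
      have := sc_nul (pow_pos hr (j : ℕ)).ne' (pow_pos hr' (j : ℕ)).ne' (S.b1 z) (S.b2 z) true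
      simpa [nul] using this
    simp only [h2]
    refine (S.bad3 _ (hD j j.2 s hs)).trans ?_
    simp only [sc]
    push_cast
    have a1 := mul_le_mul_of_nonneg_right (he j j.2) (NNReal.coe_nonneg s.1)
    have a2 := mul_le_mul_of_nonneg_right (he' j j.2) (NNReal.coe_nonneg s.2)
    linarith
  bad4 := fun s hs => by
    refine S.mix_le hK _ fun j => ?_
    have h2 : ∀ z, sc (r ^ (j : ℕ)) (r' ^ (j : ℕ)) (S.b2 z / r ^ (j : ℕ), (0 : ℝ≥0))
        = (S.b2 z, 0) := fun z => by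
      have := sc_nul (pow_pos hr (j : ℕ)).ne' (pow_pos hr' (j : ℕ)).ne' (S.b1 z) (S.b2 z) false
      simpa [nul] using this
    simp only [h2]
    refine (S.bad4 _ (hD j j.2 s hs)).trans ?_
    simp only [sc]
    push_cast
    have a1 := mul_le_mul_of_nonneg_right (he j j.2) (NNReal.coe_nonneg s.1)
    have a2 := mul_le_mul_of_nonneg_right (he' j j.2) (NNReal.coe_nonneg s.2)
    linarith
  cost1 := fun s hs t ht => by
    refine S.mix_le hK _ fun j => ?_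
    have hr0 : (0 : ℝ) < (r : ℝ) ^ (j : ℕ) := pow_pos (by exact_mod_cast hr) _
    have hr0' : (0 : ℝ) < (r' : ℝ) ^ (j : ℕ) := pow_pos (by exact_mod_cast hr') _
    have hmn : 0 < min ((r : ℝ) ^ (j : ℕ)) ((r' : ℝ) ^ (j : ℕ)) := lt_min hr0 hr0'
    have h1 := S.cost1 _ (hD j j.2 s hs) _ (hD j j.2 t ht)
    refine le_of_mul_le_mul_left ?_ hmn
    rw [Finset.mul_sum]
    calc _ ≤ ∑ z, S.wt z * max
          ((sc (r ^ (j : ℕ)) (r' ^ (j : ℕ)) s).1 * S.P1 z (sc (r ^ (j : ℕ)) (r' ^ (j : ℕ)) s)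
              (sc (r ^ (j : ℕ)) (r' ^ (j : ℕ)) t)
            + (sc (r ^ (j : ℕ)) (r' ^ (j : ℕ)) t).1
              * S.P2 z (sc (r ^ (j : ℕ)) (r' ^ (j : ℕ)) s) (sc (r ^ (j : ℕ)) (r' ^ (j : ℕ)) t))
          ((sc (r ^ (j : ℕ)) (r' ^ (j : ℕ)) s).2
              * (1 - S.P1 z (sc (r ^ (j : ℕ)) (r' ^ (j : ℕ)) s)
                (sc (r ^ (j : ℕ)) (r' ^ (j : ℕ)) t))
            + (sc (r ^ (j : ℕ)) (r' ^ (j : ℕ)) t).2
              * (1 - S.P2 z (sc (r ^ (j : ℕ)) (r' ^ (j : ℕ)) s)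
                (sc (r ^ (j : ℕ)) (r' ^ (j : ℕ)) t))) := by
          refine Finset.sum_le_sum fun z _ => ?_
          rw [← mul_assoc, mul_comm (min _ _) (S.wt z), mul_assoc]
          refine mul_le_mul_of_nonneg_left ?_ (S.wt_nonneg z)
          set A := S.P1 z (sc (r ^ (j : ℕ)) (r' ^ (j : ℕ)) s) (sc (r ^ (j : ℕ)) (r' ^ (j : ℕ)) t)
            with hA
          set B := S.P2 z (sc (r ^ (j : ℕ)) (r' ^ (j : ℕ)) s) (sc (r ^ (j : ℕ)) (r' ^ (j : ℕ)) t)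
            with hB
          have A0 : 0 ≤ A := S.P1_nonneg _ _ _
          have A1 : 0 ≤ 1 - A := sub_nonneg.2 (S.P1_le _ _ _)
          have B0 : 0 ≤ B := S.P2_nonneg _ _ _
          have B1 : 0 ≤ 1 - B := sub_nonneg.2 (S.P2_le _ _ _)
          rw [mul_max_of_nonneg _ _ hmn.le]
          simp only [sc]
          push_cast
          refine max_le_max ?_ ?_
          · have : 0 ≤ s.1 * A + t.1 * B := by positivity
            have := mul_le_mul_of_nonneg_right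
              (min_le_left ((r : ℝ) ^ (j : ℕ)) ((r' : ℝ) ^ (j : ℕ))) this
            linarith
          · have : 0 ≤ s.2 * (1 - A) + t.2 * (1 - B) := by positivity
            have := mul_le_mul_of_nonneg_right
              (min_le_right ((r : ℝ) ^ (j : ℕ)) ((r' : ℝ) ^ (j : ℕ))) this
            linarith
      _ ≤ c * max ((sc (r ^ (j : ℕ)) (r' ^ (j : ℕ)) s).1 : ℝ)
            (sc (r ^ (j : ℕ)) (r' ^ (j : ℕ)) t).2 := h1
      _ ≤ c * (max ((r : ℝ) ^ (j : ℕ)) ((r' : ℝ) ^ (j : ℕ)) * max (s.1 : ℝ) t.2) := by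
          refine mul_le_mul_of_nonneg_left ?_ hc0
          simp only [sc]
          push_cast
          refine max_le ?_ ?_
          · exact mul_le_mul (le_max_left _ _) (le_max_left _ _) (NNReal.coe_nonneg _)
              (hr0.le.trans (le_max_left _ _))
          · exact mul_le_mul (le_max_right _ _) (le_max_right _ _) (NNReal.coe_nonneg _)
              (hr0.le.trans (le_max_left _ _))
      _ ≤ _ := by
          have h2 : 0 ≤ max (s.1 : ℝ) t.2 := (NNReal.coe_nonneg _).trans (le_max_left _ _)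
          have := mul_le_mul_of_nonneg_right (hc j j.2) h2
          linarith
  cost2 := fun s hs t ht => by
    refine S.mix_le hK _ fun j => ?_
    have hr0 : (0 : ℝ) < (r : ℝ) ^ (j : ℕ) := pow_pos (by exact_mod_cast hr) _
    have hr0' : (0 : ℝ) < (r' : ℝ) ^ (j : ℕ) := pow_pos (by exact_mod_cast hr') _
    have hmn : 0 < min ((r : ℝ) ^ (j : ℕ)) ((r' : ℝ) ^ (j : ℕ)) := lt_min hr0 hr0'
    have h1 := S.cost2 _ (hD j j.2 s hs) _ (hD j j.2 t ht)
    refine le_of_mul_le_mul_left ?_ hmn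
    rw [Finset.mul_sum]
    calc _ ≤ ∑ z, S.wt z * max
          ((sc (r ^ (j : ℕ)) (r' ^ (j : ℕ)) s).1 * S.P1 z (sc (r ^ (j : ℕ)) (r' ^ (j : ℕ)) s)
              (sc (r ^ (j : ℕ)) (r' ^ (j : ℕ)) t)
            + (sc (r ^ (j : ℕ)) (r' ^ (j : ℕ)) t).1
              * S.P2 z (sc (r ^ (j : ℕ)) (r' ^ (j : ℕ)) s) (sc (r ^ (j : ℕ)) (r' ^ (j : ℕ)) t))
          ((sc (r ^ (j : ℕ)) (r' ^ (j : ℕ)) s).2
              * (1 - S.P1 z (sc (r ^ (j : ℕ)) (r' ^ (j : ℕ)) s)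
                (sc (r ^ (j : ℕ)) (r' ^ (j : ℕ)) t))
            + (sc (r ^ (j : ℕ)) (r' ^ (j : ℕ)) t).2
              * (1 - S.P2 z (sc (r ^ (j : ℕ)) (r' ^ (j : ℕ)) s)
                (sc (r ^ (j : ℕ)) (r' ^ (j : ℕ)) t))) := by
          refine Finset.sum_le_sum fun z _ => ?_
          rw [← mul_assoc, mul_comm (min _ _) (S.wt z), mul_assoc]
          refine mul_le_mul_of_nonneg_left ?_ (S.wt_nonneg z)
          set A := S.P1 z (sc (r ^ (j : ℕ)) (r' ^ (j : ℕ)) s) (sc (r ^ (j : ℕ)) (r' ^ (j : ℕ)) t)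
            with hA
          set B := S.P2 z (sc (r ^ (j : ℕ)) (r' ^ (j : ℕ)) s) (sc (r ^ (j : ℕ)) (r' ^ (j : ℕ)) t)
            with hB
          have A0 : 0 ≤ A := S.P1_nonneg _ _ _
          have A1 : 0 ≤ 1 - A := sub_nonneg.2 (S.P1_le _ _ _)
          have B0 : 0 ≤ B := S.P2_nonneg _ _ _
          have B1 : 0 ≤ 1 - B := sub_nonneg.2 (S.P2_le _ _ _)
          rw [mul_max_of_nonneg _ _ hmn.le]
          simp only [sc]
          push_cast
          refine max_le_max ?_ ?_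
          · have : 0 ≤ s.1 * A + t.1 * B := by positivity
            have := mul_le_mul_of_nonneg_right
              (min_le_left ((r : ℝ) ^ (j : ℕ)) ((r' : ℝ) ^ (j : ℕ))) this
            linarith
          · have : 0 ≤ s.2 * (1 - A) + t.2 * (1 - B) := by positivity
            have := mul_le_mul_of_nonneg_right
              (min_le_right ((r : ℝ) ^ (j : ℕ)) ((r' : ℝ) ^ (j : ℕ))) this
            linarith
      _ ≤ c * max ((sc (r ^ (j : ℕ)) (r' ^ (j : ℕ)) s).2 : ℝ)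
            (sc (r ^ (j : ℕ)) (r' ^ (j : ℕ)) t).1 := h1
      _ ≤ c * (max ((r : ℝ) ^ (j : ℕ)) ((r' : ℝ) ^ (j : ℕ)) * max (s.2 : ℝ) t.1) := by
          refine mul_le_mul_of_nonneg_left ?_ hc0
          simp only [sc]
          push_cast
          refine max_le ?_ ?_
          · exact mul_le_mul (le_max_right _ _) (le_max_left _ _) (NNReal.coe_nonneg _)
              (hr0.le.trans (le_max_left _ _))
          · exact mul_le_mul (le_max_left _ _) (le_max_right _ _) (NNReal.coe_nonneg _)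
              (hr0.le.trans (le_max_left _ _))
      _ ≤ _ := by
          have h2 : 0 ≤ max (s.2 : ℝ) t.1 := (NNReal.coe_nonneg _).trans (le_max_left _ _)
          have := mul_le_mul_of_nonneg_right (hc j j.2) h2
          linarith
  K := fun p s => S.K p.1 (sc (r ^ (p.2 : ℕ)) (r' ^ (p.2 : ℕ)) s)
  K0 := fun p s => S.K0 _ _
  K1 := fun p s => S.K1 _ _
  Kanti := fun p a a' b h => S.Kanti _ _ _ _ (mul_le_mul_right h _)
  Kmono := fun p a b b' h => S.Kmono _ _ _ _ (mul_le_mul_right h _)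
  kE1 := fun s => by
    rw [S.sum_mix, S.sum_mix]
    congr 1
    refine Finset.sum_congr rfl fun j _ => ?_
    simp only [sc_nul (pow_pos hr (j : ℕ)).ne' (pow_pos hr' (j : ℕ)).ne']
    exact S.kE1 _
  kE2 := fun s => by
    rw [S.sum_mix, S.sum_mix]
    congr 1
    refine Finset.sum_congr rfl fun j _ => ?_
    simp only [sc_nul (pow_pos hr (j : ℕ)).ne' (pow_pos hr' (j : ℕ)).ne']
    exact S.kE2 _
  kE3 := fun s t => by
    rw [S.sum_mix, S.sum_mix, ← mul_sub, ← Finset.sum_sub_distrib, abs_mul]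
    have hK' : (0 : ℝ) < K := by exact_mod_cast hK
    rw [abs_of_nonneg (by positivity : (0 : ℝ) ≤ 1 / K)]
    have h1 : |∑ j : Fin K, ((∑ z, S.wt z * (S.P1 z (sc (r ^ (j : ℕ)) (r' ^ (j : ℕ)) s)
        (sc (r ^ (j : ℕ)) (r' ^ (j : ℕ)) (nul (S.b1 z / r' ^ (j : ℕ)) (S.b2 z / r ^ (j : ℕ))
          (S.eb z)))
        * S.P2 z (sc (r ^ (j : ℕ)) (r' ^ (j : ℕ)) (nul (S.b1 z / r' ^ (j : ℕ))
          (S.b2 z / r ^ (j : ℕ)) (S.ea z))) (sc (r ^ (j : ℕ)) (r' ^ (j : ℕ)) t)))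
        - ∑ z, S.wt z * (S.K z (sc (r ^ (j : ℕ)) (r' ^ (j : ℕ)) s)
          * S.K z (sc (r ^ (j : ℕ)) (r' ^ (j : ℕ)) t)))| ≤ ∑ j : Fin K, η := by
      refine (Finset.abs_sum_le_sum_abs _ _).trans (Finset.sum_le_sum fun j _ => ?_)
      simp only [sc_nul (pow_pos hr (j : ℕ)).ne' (pow_pos hr' (j : ℕ)).ne']
      exact S.kE3 _ _
    refine (mul_le_mul_of_nonneg_left h1 (by positivity : (0 : ℝ) ≤ 1 / K)).trans (le_of_eq ?_)
    rw [Finset.sum_const, Finset.card_univ, Fintype.card_fin, nsmul_eq_mul]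
    field_simp

end Sys

/-- systems with almost invariant mean exist, for all parameters -/
def ExL (c : ℝ) (L : List (ℝ≥0 × ℝ≥0 × ℝ)) : Prop :=
  ∀ (D : Finset T) (e η : ℝ) (bm : ℝ≥0), 0 < e → 0 < η → 0 < bm →
    ∃ S : Sys c (↑D) e η bm, ∀ p ∈ L, ∀ s, |S.m (sc p.1 p.2.1 s) - S.m s| ≤ p.2.2

theorem Sys.m_nonneg (S : Sys c D e η bm) (s : T) : 0 ≤ S.m s :=
  Finset.sum_nonneg fun z _ => mul_nonneg (S.wt_nonneg z) (S.K0 z s)

theorem Sys.m_le (S : Sys c D e η bm) (s : T) : S.m s ≤ 1 := by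
  calc S.m s ≤ ∑ z, S.wt z * 1 :=
        Finset.sum_le_sum fun z _ => mul_le_mul_of_nonneg_left (S.K1 z s) (S.wt_nonneg z)
    _ = 1 := by simp only [mul_one]; exact S.wt_sum

theorem ExL.mix {c c' : ℝ} {L : List (ℝ≥0 × ℝ≥0 × ℝ)} (h : ExL c L) (hc0 : 0 ≤ c)
    {r r' : ℝ≥0} (hr : 0 < r) (hr' : 0 < r') {K : ℕ} (hK : 0 < K)
    (hc : ∀ j < K, c * max ((r : ℝ) ^ j) ((r' : ℝ) ^ j)
      ≤ c' * min ((r : ℝ) ^ j) ((r' : ℝ) ^ j)) :
    ExL c' ((r, r', 1 / (K : ℝ)) :: L) := by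
  classical
  intro D e η bm he hη hbm
  let M : ℝ≥0 := 1 + r + r'
  let u : ℝ≥0 := min 1 (min r r')
  have hM1 : 1 ≤ M := by
    change 1 ≤ 1 + r + r'
    rw [add_assoc]; exact le_self_add
  have hM2 : r ≤ M := by
    change r ≤ 1 + r + r'
    rw [add_comm 1 r, add_assoc]; exact le_self_add
  have hM3 : r' ≤ M := by
    change r' ≤ 1 + r + r'
    rw [add_comm (1 + r) r']; exact le_self_add
  have hu0 : 0 < u := lt_min one_pos (lt_min hr hr')
  have hu1 : u ≤ 1 := min_le_left _ _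
  have hu2 : u ≤ r := (min_le_right _ _).trans (min_le_left _ _)
  have hu3 : u ≤ r' := (min_le_right _ _).trans (min_le_right _ _)
  have hMr : (1 : ℝ) ≤ M := by exact_mod_cast hM1
  have hMK : (0 : ℝ) < (M : ℝ) ^ K := by positivity
  obtain ⟨S, hS⟩ := h ((Finset.range K).biUnion fun j => D.image (sc (r ^ j) (r' ^ j)))
    (e / (M : ℝ) ^ K) η (bm * u ^ K) (by positivity) hη (mul_pos hbm (pow_pos hu0 _))
  have hpow : ∀ j < K, (r : ℝ) ^ j ≤ (M : ℝ) ^ K := fun j hj =>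
    (pow_le_pow_left₀ r.coe_nonneg (by exact_mod_cast hM2) j).trans
      (pow_le_pow_right₀ hMr hj.le)
  have hpow' : ∀ j < K, (r' : ℝ) ^ j ≤ (M : ℝ) ^ K := fun j hj =>
    (pow_le_pow_left₀ r'.coe_nonneg (by exact_mod_cast hM3) j).trans
      (pow_le_pow_right₀ hMr hj.le)
  have e0 : 0 ≤ e / (M : ℝ) ^ K := by positivity
  have he1 : ∀ j < K, e / (M : ℝ) ^ K * (r : ℝ) ^ j ≤ e := fun j hj => by
    rw [div_mul_eq_mul_div, div_le_iff₀ hMK]
    exact mul_le_mul_of_nonneg_left (hpow j hj) he.le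
  have he2 : ∀ j < K, e / (M : ℝ) ^ K * (r' : ℝ) ^ j ≤ e := fun j hj => by
    rw [div_mul_eq_mul_div, div_le_iff₀ hMK]
    exact mul_le_mul_of_nonneg_left (hpow' j hj) he.le
  have hb1 : ∀ j < K, bm * u ^ K ≤ r ^ j * bm := fun j hj => by
    rw [mul_comm]
    refine mul_le_mul_left ?_ _
    exact (pow_le_pow_of_le_one zero_le hu1 hj.le).trans (pow_le_pow_left' hu2 j)
  have hb2 : ∀ j < K, bm * u ^ K ≤ r' ^ j * bm := fun j hj => by
    rw [mul_comm]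
    refine mul_le_mul_left ?_ _
    exact (pow_le_pow_of_le_one zero_le hu1 hj.le).trans (pow_le_pow_left' hu3 j)
  have hD : ∀ j < K, ∀ s ∈ (↑D : Set T), sc (r ^ j) (r' ^ j) s ∈
      (↑((Finset.range K).biUnion fun j => D.image (sc (r ^ j) (r' ^ j))) : Set T) := by
    intro j hj s hs
    simp only [Finset.coe_biUnion, Set.mem_iUnion]
    exact ⟨j, Finset.mem_coe.2 (Finset.mem_range.2 hj),
      Finset.mem_coe.2 (Finset.mem_image_of_mem _ (Finset.mem_coe.1 hs))⟩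
  let S' := S.mix hK hr hr' hc0 e0 hD he1 he2 hb1 hb2 hc
  have hm : ∀ s, S'.m s = (1 / K) * ∑ j ∈ Finset.range K, S.m (sc (r ^ j) (r' ^ j) s) := by
    intro s
    rw [Finset.sum_range]
    exact S.sum_mix K (fun p => S.K p.1 (sc (r ^ (p.2 : ℕ)) (r' ^ (p.2 : ℕ)) s))
  have hK' : (0 : ℝ) < K := by exact_mod_cast hK
  refine ⟨S', fun p hp s => ?_⟩
  rcases List.mem_cons.1 hp with rfl | hp
  · simp only
    rw [hm, hm, ← mul_sub, ← Finset.sum_sub_distrib]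
    have e1 : ∀ j ∈ Finset.range K, S.m (sc (r ^ j) (r' ^ j) (sc r r' s))
        - S.m (sc (r ^ j) (r' ^ j) s)
        = (fun j => S.m (sc (r ^ j) (r' ^ j) s)) (j + 1)
          - (fun j => S.m (sc (r ^ j) (r' ^ j) s)) j := by
      intro j _
      simp only [sc_sc, pow_succ]
    rw [Finset.sum_congr rfl e1,
      Finset.sum_range_sub (fun j => S.m (sc (r ^ j) (r' ^ j) s)) K, abs_mul,
      abs_of_nonneg (by positivity : (0 : ℝ) ≤ 1 / K)]
    have h1 := S.m_nonneg (sc (r ^ K) (r' ^ K) s)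
    have h2 := S.m_le (sc (r ^ K) (r' ^ K) s)
    have h3 := S.m_nonneg (sc (r ^ 0) (r' ^ 0) s)
    have h4 := S.m_le (sc (r ^ 0) (r' ^ 0) s)
    have h5 : |S.m (sc (r ^ K) (r' ^ K) s) - S.m (sc (r ^ 0) (r' ^ 0) s)| ≤ 1 :=
      abs_le.2 ⟨by linarith, by linarith⟩
    calc 1 / (K : ℝ) * |S.m (sc (r ^ K) (r' ^ K) s) - S.m (sc (r ^ 0) (r' ^ 0) s)|
        ≤ 1 / K * 1 := mul_le_mul_of_nonneg_left h5 (by positivity)
      _ = 1 / K := mul_one _
  · rw [hm, hm, ← mul_sub, ← Finset.sum_sub_distrib, abs_mul,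
      abs_of_nonneg (by positivity : (0 : ℝ) ≤ 1 / K)]
    have h1 : |∑ j ∈ Finset.range K, (S.m (sc (r ^ j) (r' ^ j) (sc p.1 p.2.1 s))
        - S.m (sc (r ^ j) (r' ^ j) s))| ≤ ∑ j ∈ Finset.range K, p.2.2 := by
      refine (Finset.abs_sum_le_sum_abs _ _).trans (Finset.sum_le_sum fun j _ => ?_)
      have := hS p hp (sc (r ^ j) (r' ^ j) s)
      rw [sc_sc, mul_comm (r ^ j), mul_comm (r' ^ j), ← sc_sc]
      exact this
    calc 1 / (K : ℝ) * |∑ j ∈ Finset.range K, (S.m (sc (r ^ j) (r' ^ j) (sc p.1 p.2.1 s))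
        - S.m (sc (r ^ j) (r' ^ j) s))| ≤ 1 / K * ∑ j ∈ Finset.range K, p.2.2 :=
          mul_le_mul_of_nonneg_left h1 (by positivity)
      _ = p.2.2 := by
          rw [Finset.sum_const, Finset.card_range, nsmul_eq_mul]
          field_simp

end

end Pool.Agent.Lib.MP_2c6a66_lc.UT
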